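import Mathlib
import Pool.Agent.Lib.P0c8ca5Kq.Cb

/-!
# CA: coprime action on a section of an abelian group

`exists_fix`: `a` normalizes the abelian p-group `D`, a power of `a` with exponent prime to `p` centralizes `D`, and `v`
in `D` outside `Q` is fixed by the powers of `a` modulo `Q`; then `a` fixes an element of `D` outside `Q`.

`exists_dec`: `x`, `y` normalize `Q < D` and commute modulo `C(D)`; then there is `z` in the group `X` generated by `x`, `y`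
such that every element of `X` is `a z ^ m` with `a` in `X` fixing an element of `D` outside `Q`.
-/

set_option autoImplicit false

namespace Pool.Agent.Lib.P0c8ca5.Nc

variable {A : Type*} [Group A]

theorem nm_succ (a v : A) (j : ℕ) :
    (v * a) ^ (j + 1) * (a ^ (j + 1))⁻¹ =
      ((v * a) ^ j * (a ^ j)⁻¹) * (a ^ j * v * (a ^ j)⁻¹) := by
  rw [pow_succ, pow_succ]
  group

theorem mem_of_coprime {Q : Subgroup A} {v : A} {m n : ℕ} (h : m.Coprime n) (h1 : v ^ m ∈ Q)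
    (h2 : v ^ n ∈ Q) : v ∈ Q := by
  have h3 : (v ^ m) ^ (m.gcdA n) * (v ^ n) ^ (m.gcdB n) ∈ Q :=
    Q.mul_mem (Q.zpow_mem h1 _) (Q.zpow_mem h2 _)
  have h4 : (v ^ m) ^ (m.gcdA n) * (v ^ n) ^ (m.gcdB n) = v := by
    rw [← zpow_natCast v m, ← zpow_natCast v n, ← zpow_mul, ← zpow_mul, ← zpow_add,
      ← Nat.gcd_eq_gcd_ab, h, Nat.cast_one, zpow_one]
  rwa [h4] at h3

theorem exists_fix {p : ℕ} {D Q : Subgroup A} (hcom : ∀ x ∈ D, ∀ y ∈ D, x * y = y * x)
    (hDp : IsPGroup p D) (hQD : Q ≤ D) {a v : A} (ha : a ∈ Subgroup.normalizer (D : Set A))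
    {m : ℕ} (hm : m.Coprime p) (ham : a ^ m ∈ Subgroup.centralizer (D : Set A)) (hv : v ∈ D)
    (hvQ : v ∉ Q) (hav : ∀ j : ℕ, v⁻¹ * (a ^ j * v * (a ^ j)⁻¹) ∈ Q) :
    ∃ n ∈ D, n ∉ Q ∧ a * n = n * a := by
  have hconj : ∀ j : ℕ, a ^ j * v * (a ^ j)⁻¹ ∈ D := fun j =>
    (Subgroup.mem_normalizer_iff.1 (Subgroup.pow_mem _ ha j) v).1 hv
  have hind : ∀ j : ℕ, (v * a) ^ j * (a ^ j)⁻¹ ∈ D ∧
      (v ^ j)⁻¹ * ((v * a) ^ j * (a ^ j)⁻¹) ∈ Q := by
    intro j
    induction j with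
    | zero =>
      simp only [pow_zero, inv_one, mul_one]
      exact ⟨D.one_mem, Q.one_mem⟩
    | succ j ih =>
      rw [nm_succ]
      refine ⟨D.mul_mem ih.1 (hconj j), ?_⟩
      set N := (v * a) ^ j * (a ^ j)⁻¹ with hN
      set w := a ^ j * v * (a ^ j)⁻¹ with hw
      have h1 := Q.mul_mem ih.2 (hav j)
      have h2 : (v ^ j)⁻¹ * N * (v⁻¹ * w) = (v ^ (j + 1))⁻¹ * (N * w) := by
        have e1 : N * v⁻¹ = v⁻¹ * N := hcom _ ih.1 _ (D.inv_mem hv)
        calc (v ^ j)⁻¹ * N * (v⁻¹ * w) = (v ^ j)⁻¹ * (N * v⁻¹) * w := by group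
          _ = (v ^ j)⁻¹ * (v⁻¹ * N) * w := by rw [e1]
          _ = (v ^ (j + 1))⁻¹ * (N * w) := by rw [pow_succ]; group
      rwa [h2] at h1
  obtain ⟨hN, hN'⟩ := hind m
  refine ⟨(v * a) ^ m * (a ^ m)⁻¹, hN, ?_, ?_⟩
  · intro h1
    apply hvQ
    obtain ⟨k, hk⟩ := hDp ⟨v, hv⟩
    have hk' : v ^ p ^ k = 1 := congrArg Subtype.val hk
    have h2 : v ^ m ∈ Q := by
      have h3 := Q.mul_mem h1 (Q.inv_mem hN')
      have h4 : (v * a) ^ m * (a ^ m)⁻¹ * ((v ^ m)⁻¹ * ((v * a) ^ m * (a ^ m)⁻¹))⁻¹ = v ^ m := by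
        group
      rwa [h4] at h3
    exact mem_of_coprime (hm.pow_right k) h2 (by rw [hk']; exact Q.one_mem)
  · set n := (v * a) ^ m * (a ^ m)⁻¹ with hn
    have e0 : a * (v * a) ^ m = v⁻¹ * ((v * a) ^ m * (v * a)) := by
      rw [← pow_succ, pow_succ', mul_assoc v a, inv_mul_cancel_left]
    have e1 : a ^ m * v = v * a ^ m := (Subgroup.mem_centralizer_iff.1 ham v hv).symm
    have e2 : n * v = v * n := hcom _ hN _ hv
    calc a * n = a * (v * a) ^ m * (a ^ m)⁻¹ := by rw [hn]; group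
      _ = v⁻¹ * ((v * a) ^ m * (v * a)) * (a ^ m)⁻¹ := by rw [e0]
      _ = v⁻¹ * (n * (a ^ m * v) * a * (a ^ m)⁻¹) := by rw [hn]; group
      _ = v⁻¹ * (n * (v * a ^ m) * a * (a ^ m)⁻¹) := by rw [e1]
      _ = v⁻¹ * ((n * v) * a) := by
          have e3 : a ^ m * a * (a ^ m)⁻¹ = a := by
            rw [← pow_succ, pow_succ']; group
          calc v⁻¹ * (n * (v * a ^ m) * a * (a ^ m)⁻¹)
              = v⁻¹ * (n * v * (a ^ m * a * (a ^ m)⁻¹)) := by group
            _ = v⁻¹ * ((n * v) * a) := by rw [e3]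
      _ = v⁻¹ * ((v * n) * a) := by rw [e2]
      _ = n * a := by group

/-- the action on a section -/
theorem exists_dec [Finite A] {p : ℕ} {D Q : Subgroup A}
    (hcom : ∀ x ∈ D, ∀ y ∈ D, x * y = y * x) (hDp : IsPGroup p D) (hQD : Q ≤ D) (hne : Q ≠ D)
    {x y : A} (hx : x ∈ Subgroup.normalizer (D : Set A))
    (hy : y ∈ Subgroup.normalizer (D : Set A)) (hxQ : x ∈ Subgroup.normalizer (Q : Set A))
    (hyQ : y ∈ Subgroup.normalizer (Q : Set A))
    (hxy : y * x * y⁻¹ * x⁻¹ ∈ Subgroup.centralizer (D : Set A))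
    (hpr : ∀ g ∈ Subgroup.closure ({x, y} : Set A), ∃ m : ℕ, m.Coprime p ∧
      g ^ m ∈ Subgroup.centralizer (D : Set A)) :
    ∃ z ∈ Subgroup.closure ({x, y} : Set A), ∀ g ∈ Subgroup.closure ({x, y} : Set A),
      ∃ m : ℕ, ∃ a ∈ Subgroup.closure ({x, y} : Set A), g = a * z ^ m ∧
        ∃ n ∈ D, n ∉ Q ∧ a * n = n * a := by
  classical
  set X := Subgroup.closure ({x, y} : Set A) with hX
  have hXD : X ≤ Subgroup.normalizer (D : Set A) := by
    rw [hX, Subgroup.closure_le]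
    rintro z (rfl | rfl)
    · exact hx
    · exact hy
  have hXQ : X ≤ Subgroup.normalizer (Q : Set A) := by
    rw [hX, Subgroup.closure_le]
    rintro z (rfl | rfl)
    · exact hxQ
    · exact hyQ
  have hcc := Kq.CbAux.comm_closure hx hy hxy
  let P : Subgroup A → Prop := fun V => V ≤ D ∧ Q < V ∧ X ≤ Subgroup.normalizer (V : Set A)
  have hPD : P D := ⟨le_rfl, lt_of_le_of_ne hQD hne, hXD⟩
  obtain ⟨V, hVD, hV⟩ := exists_minimal_le_of_wellFoundedLT P D hPD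
  obtain ⟨hVle, hQV, hVX⟩ := hV.prop
  let inst : CommGroup V := { (inferInstance : Group V) with
    mul_comm := fun a b => Subtype.ext (hcom _ (hVle a.2) _ (hVle b.2)) }
  set Q' : Subgroup V := Q.subgroupOf V with hQ'
  obtain ⟨v₀, hv₀V, hv₀Q⟩ := SetLike.exists_of_lt hQV
  have hnt : Nontrivial (V ⧸ Q') := by
    refine ⟨⟨((⟨v₀, hv₀V⟩ : V) : V ⧸ Q'), 1, fun h => hv₀Q ?_⟩⟩
    rw [QuotientGroup.eq_one_iff] at h
    exact Subgroup.mem_subgroupOf.1 h
  let ψ : ↥X →* MulAut V := V.normalizerMonoidHom.comp (Subgroup.inclusion hVX)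
  have hψ : ∀ (g : ↥X) (v : V), ((ψ g v : V) : A) = g * v * (g : A)⁻¹ := fun g v => rfl
  have hψQ : ∀ g : ↥X, Q'.map (ψ g).toMonoidHom = Q' := by
    have h1 : ∀ g : ↥X, Q'.map (ψ g).toMonoidHom ≤ Q' := by
      rintro g _ ⟨v, hv, rfl⟩
      rw [hQ', Subgroup.mem_subgroupOf]
      exact (Subgroup.mem_normalizer_iff.1 (hXQ g.2) _).1 (Subgroup.mem_subgroupOf.1 hv)
    intro g
    refine le_antisymm (h1 g) fun v hv => ?_
    refine ⟨ψ g⁻¹ v, h1 g⁻¹ ⟨v, hv, rfl⟩, ?_⟩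
    show ψ g (ψ g⁻¹ v) = v
    rw [← MulAut.mul_apply, ← map_mul, mul_inv_cancel, map_one]
    rfl
  let φ : ↥X →* MulAut (V ⧸ Q') :=
    { toFun := fun g => QuotientGroup.congr Q' Q' (ψ g) (hψQ g)
      map_one' := by
        apply MulEquiv.ext
        intro w
        obtain ⟨v, rfl⟩ := QuotientGroup.mk_surjective w
        show ((ψ 1 v : V) : V ⧸ Q') = _
        rw [map_one]
        rfl
      map_mul' := by
        intro g h
        apply MulEquiv.ext
        intro w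
        obtain ⟨v, rfl⟩ := QuotientGroup.mk_surjective w
        show ((ψ (g * h) v : V) : V ⧸ Q') = ((ψ g (ψ h v) : V) : V ⧸ Q')
        rw [map_mul]
        rfl }
  have hφ : ∀ (g : ↥X) (v : V), φ g (v : V ⧸ Q') = ((ψ g v : V) : V ⧸ Q') := fun g v => rfl
  have hcomm : ∀ a b, φ a * φ b = φ b * φ a := by
    intro a b
    rw [← map_mul, ← map_mul]
    apply MulEquiv.ext
    intro w
    obtain ⟨v, rfl⟩ := QuotientGroup.mk_surjective w
    rw [hφ, hφ]
    congr 1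
    apply Subtype.ext
    rw [hψ, hψ, Subgroup.coe_mul, Subgroup.coe_mul]
    have h1 := Subgroup.mem_centralizer_iff.1 (hcc _ b.2 _ a.2)
      ((b : A) * (a : A) * v * (a : A)⁻¹ * (b : A)⁻¹) (by
        have h2 := (Subgroup.mem_normalizer_iff.1 (hXD a.2) v).1 (hVle v.2)
        have h3 := (Subgroup.mem_normalizer_iff.1 (hXD b.2) _).1 h2
        have e : (b : A) * (a : A) * v * (a : A)⁻¹ * (b : A)⁻¹ =
          b * (a * v * (a : A)⁻¹) * (b : A)⁻¹ := by group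
        rw [e]
        exact h3)
    have e1 : (a : A) * b * v * ((a : A) * b)⁻¹ =
        (a * b * (a : A)⁻¹ * (b : A)⁻¹) * (b * a * v * (a : A)⁻¹ * (b : A)⁻¹) *
          (a * b * (a : A)⁻¹ * (b : A)⁻¹)⁻¹ := by group
    rw [e1, ← h1]
    group
  have hirr : ∀ W : Subgroup (V ⧸ Q'), (∀ h, ∀ w ∈ W, φ h w ∈ W) → W = ⊥ ∨ W = ⊤ := by
    intro W hW
    by_cases hb : W = ⊥
    · exact Or.inl hb
    · right
      set W' : Subgroup V := W.comap (QuotientGroup.mk' Q') with hW'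
      have hQW : Q ≤ W'.map V.subtype := by
        intro u hu
        refine ⟨⟨u, hQV.le hu⟩, ?_, rfl⟩
        rw [SetLike.mem_coe, hW', Subgroup.mem_comap]
        have h1 : (QuotientGroup.mk' Q') ⟨u, hQV.le hu⟩ = 1 := by
          rw [QuotientGroup.mk'_apply, QuotientGroup.eq_one_iff]
          exact Subgroup.mem_subgroupOf.2 hu
        rw [h1]
        exact W.one_mem
      have hQW' : Q ≠ W'.map V.subtype := by
        intro h
        apply hb
        rw [eq_bot_iff]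
        intro w hw
        obtain ⟨v, rfl⟩ := QuotientGroup.mk_surjective w
        have h1 : (v : A) ∈ Q := by
          rw [h]
          exact ⟨v, hw, rfl⟩
        rw [Subgroup.mem_bot, QuotientGroup.eq_one_iff]
        exact Subgroup.mem_subgroupOf.2 h1
      have hle : W'.map V.subtype ≤ V := by
        rintro _ ⟨w, _, rfl⟩
        exact w.2
      have h1 : P (W'.map V.subtype) := by
        refine ⟨hle.trans hVle, lt_of_le_of_ne hQW hQW', ?_⟩
        have hc : ∀ g ∈ X, ∀ v ∈ W'.map V.subtype, g * v * g⁻¹ ∈ W'.map V.subtype := by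
          rintro g hg _ ⟨w, hw, rfl⟩
          exact ⟨ψ ⟨g, hg⟩ w, hW ⟨g, hg⟩ _ hw, rfl⟩
        intro g hg
        rw [Subgroup.mem_normalizer_iff]
        intro v
        refine ⟨hc g hg v, fun h => ?_⟩
        have h2 := hc g⁻¹ (X.inv_mem hg) _ h
        have e : g⁻¹ * (g * v * g⁻¹) * g⁻¹⁻¹ = v := by group
        rwa [e] at h2
      have h2 : V ≤ W'.map V.subtype := hV.le_of_le h1 hle
      rw [eq_top_iff]
      intro w _
      obtain ⟨v, rfl⟩ := QuotientGroup.mk_surjective w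
      obtain ⟨w, hw, hwv⟩ := h2 v.2
      have : w = v := Subtype.ext hwv
      rw [this] at hw
      exact hw
  have hcyc := Zz.cyclic_of_irred φ hcomm hirr
  obtain ⟨⟨_, z, rfl⟩, hz⟩ := hcyc.exists_generator
  refine ⟨z, z.2, fun g hg => ?_⟩
  have h1 := hz ⟨φ ⟨g, hg⟩, ⟨g, hg⟩, rfl⟩
  rw [← mem_powers_iff_mem_zpowers] at h1
  obtain ⟨m, hm⟩ := h1
  have h2 : φ (z ^ m) = φ ⟨g, hg⟩ := by
    rw [map_pow]
    exact congrArg Subtype.val hm
  set a : ↥X := ⟨g, hg⟩ * (z ^ m)⁻¹ with ha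
  have h3 : φ a = 1 := by
    rw [ha, map_mul, map_inv, h2, mul_inv_cancel]
  refine ⟨m, a, a.2, ?_, ?_⟩
  · rw [ha, Subgroup.coe_mul, Subgroup.coe_inv, Subgroup.coe_pow, inv_mul_cancel_right]
  · obtain ⟨n, hn, hna⟩ := hpr a a.2
    refine exists_fix hcom hDp hQD (hXD a.2) hn hna (hVle hv₀V) hv₀Q fun j => ?_
    have h4 : φ (a ^ j) ((⟨v₀, hv₀V⟩ : V) : V ⧸ Q') = ((⟨v₀, hv₀V⟩ : V) : V ⧸ Q') := by
      rw [map_pow, h3, one_pow]
      rfl
    rw [hφ] at h4
    have h5 := QuotientGroup.eq.1 h4.symm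
    exact Subgroup.mem_subgroupOf.1 h5

end Pool.Agent.Lib.P0c8ca5.Nc
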