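import Mathlib
import Pool.Agent.Lib.P0c8ca5Kq.Cf
import Pool.Agent.Lib.P0c8ca5Nc.CA

/-!
# CB: local blocks with trivial inertial quotient

`Reg D f Q`: the elements of `St D f` that centralize `Q` centralize `D`. Then the block of `C(Q)` below `(D, f)` has one
simple module; the symbol of that module is defined and bimultiplicative on the elements of `St D f` that normalize `Q`
and commute modulo `C(D)`.
-/

set_option autoImplicit false
set_option linter.unusedSectionVars false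

namespace Pool.Agent.Lib.P0c8ca5.Nc

open MonoidAlgebra Bq Ex Kq Gg Ps Zz

variable {p : ℕ} {k : Type*} [Field k] {A : Type*} [Group A]

/-- the elements of the inertial group that centralize `Q` centralize `D` -/
def Reg (D : Subgroup A) (f : MonoidAlgebra k A) (Q : Subgroup A) : Prop :=
  ∀ g ∈ St D f, (∀ u ∈ Q, g * u = u * g) → g ∈ CD D

theorem Reg.mono {D Q R : Subgroup A} {f : MonoidAlgebra k A} (h : Reg D f Q) (hQR : Q ≤ R) :
    Reg D f R := fun g hg hu => h g hg fun u hu' => hu u (hQR hu')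

theorem reg_self {D : Subgroup A} {f : MonoidAlgebra k A} : Reg D f D := by
  intro g _ hu
  rw [Subgroup.mem_centralizer_iff]
  exact fun u hu' => (hu u hu').symm

/-- an irreducible representation of `C(Q)` in the local block of `Q` below `(D, f)` -/
structure LR (D : Subgroup A) (f i c : MonoidAlgebra k A) (Q : Subgroup A) {n : ℕ}
    (ρ : Rp k (CD Q) n) : Prop where
  le : Q ≤ D
  reg : Reg D f Q
  lb : Lb Q i c
  irr : Irr' ρ
  one : act ρ c = 1

section
variable [Fact p.Prime] [CharP k p] [IsAlgClosed k] [Fintype A]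
variable {b f i c : MonoidAlgebra k A} {D Q : Subgroup A}

theorem reg_one (hp : p ≠ 2) (h : Src p b D f i) (hQ : Q ≤ D) (hr : Reg D f Q)
    (hc : Lb Q i c) : Nat.card (IrX (CD Q) c) = 1 := by
  have hDQ : D ≤ CD Q := SrcAux.D_le_CQ hQ h.root.com
  have hfs : SuppIn (CD Q) f := h.root.fblk.suppIn.mono (Subgroup.centralizer_le hQ)
  have h1 := (Lb.src h hQ hc).root
  have h2 : St (D.subgroupOf (CD Q)) (dn (CD Q) f) ≤ CD (D.subgroupOf (CD Q)) := by
    intro g hg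
    rw [LocAux.mem_CD_sub hDQ]
    exact hr g (LocAux.st_up hDQ hfs hg) fun u hu =>
      (Subgroup.mem_centralizer_iff.1 g.2 u hu).symm
  have h3 : Free (D.subgroupOf (CD Q)) (dn (CD Q) f) := fun g hg _ _ _ _ => h2 hg
  have : Fintype ↥(CD Q) := Fintype.ofFinite _
  have h4 := l_le hp h1 h3
  have h5 : eN (D.subgroupOf (CD Q)) (dn (CD Q) f) = 1 := by
    unfold eN
    exact Subgroup.relIndex_eq_one.2 h2
  rw [h5, card_top h1.blk, dn_card_irr] at h4
  have h7 := card_irX_pos (p := p) hc.blk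
  exact le_antisymm h4 h7

theorem bel_one (h : Src p b D f i) (hQ : Q ≤ D) (hc : Lb Q i c) : Bel D f Q c 1 := by
  refine ⟨by rw [cg_one]; exact hQ, ?_⟩
  rw [cg_one, cj_one_left]
  exact Lb.f_mul h hQ hc

/-- the stabilizer of the local block -/
theorem fix_iff1 (h : Src p b D f i) (hQ : Q ≤ D) (hc : Lb Q i c) {x : A}
    (hx : x ∈ Subgroup.normalizer (Q : Set A)) :
    cj x c = c ↔ ∃ y ∈ CD Q, ∃ s ∈ St D f, x = y * s := by
  have h1 := fix_iff' h hc.blk (bel_one h hQ hc) hx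
  rwa [cg_one] at h1

theorem fix_c (h : Src p b D f i) (hQ : Q ≤ D) (hc : Lb Q i c) {x : A} (hx : x ∈ St D f)
    (hxQ : x ∈ Subgroup.normalizer (Q : Set A)) : cj x c = c :=
  (fix_iff1 h hQ hc hxQ).2 ⟨1, (CD Q).one_mem, x, hx, by rw [one_mul]⟩

theorem exists_LR (h : Src p b D f i) (hQ : Q ≤ D) (hr : Reg D f Q) :
    ∃ (c : MonoidAlgebra k A) (n : ℕ) (ρ : Rp k (CD Q) n), LR D f i c Q ρ := by
  obtain ⟨c, hc⟩ := exists_lb h hQ
  obtain ⟨n, ρ, h1, h2⟩ := Rk.CardDZAux.exists_rep hc.blk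
  exact ⟨c, n, ρ, hQ, hr, hc, h1, h2⟩

theorem lb_unique (h : Src p b D f i) (hQ : Q ≤ D) {c c' : MonoidAlgebra k A} (hc : Lb Q i c)
    (hc' : Lb Q i c') : c = c' :=
  uniq h hQ hc.blk hc'.blk (Lb.f_mul h hQ hc) (Lb.f_mul h hQ hc')

theorem lb_D (h : Src p b D f i) (hc : Lb D i c) : c = f := by
  refine uniq h le_rfl hc.blk h.root.fblk (Lb.f_mul h le_rfl hc) ?_
  rw [BrAux.resS_of_SuppIn h.root.fblk.suppIn, h.root.fblk.idem]

variable {n : ℕ} {ρ : Rp k (CD Q) n}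

theorem nrm {x : A} (hx : x ∈ Subgroup.normalizer (Q : Set A)) :
    x ∈ Subgroup.normalizer (CD Q : Set A) := mem_normalizer_centralizer hx

theorem LR.itw (hp : p ≠ 2) (h : Src p b D f i) (H : LR D f i c Q ρ) {x : A}
    (hx : x ∈ St D f) (hxQ : x ∈ Subgroup.normalizer (Q : Set A)) : ∃ X, Itw (CD Q) ρ x X :=
  (CaAux.fix_iff H.irr H.lb.blk H.one (reg_one hp h H.le H.reg H.lb) (nrm hxQ)).2
    (fix_c h H.le H.lb hx hxQ)

theorem LR.ne (hp : p ≠ 2) (h : Src p b D f i) (H : LR D f i c Q ρ) {x y : A}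
    (hx : x ∈ St D f) (hxQ : x ∈ Subgroup.normalizer (Q : Set A)) (hy : y ∈ St D f)
    (hyQ : y ∈ Subgroup.normalizer (Q : Set A)) (hxy : y * x * y⁻¹ * x⁻¹ ∈ CD D) :
    om (CD Q) ρ x y ≠ 0 :=
  (om_ne_zero_iff H.irr (nrm hxQ) (nrm hyQ)).2
    ⟨H.itw hp h hx hxQ, H.itw hp h hy hyQ, Subgroup.centralizer_le H.le hxy⟩

theorem LR.eq (hp : p ≠ 2) (h : Src p b D f i) (H : LR D f i c Q ρ) {c' : MonoidAlgebra k A}
    {n' : ℕ} {ρ' : Rp k (CD Q) n'} (H' : LR D f i c' Q ρ') {x y : A}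
    (hxQ : x ∈ Subgroup.normalizer (Q : Set A)) (hyQ : y ∈ Subgroup.normalizer (Q : Set A)) :
    om (CD Q) ρ x y = om (CD Q) ρ' x y := by
  have h1 := lb_unique h H.le H.lb H'.lb
  subst h1
  have hl := reg_one hp h H.le H.reg H.lb
  rw [Nat.card_eq_one_iff_unique] at hl
  have := hl.1
  have h3 : (⟦mkIrr ρ H.irr H.one⟧ : IrX (CD Q) c) = ⟦mkIrr ρ' H'.irr H'.one⟧ :=
    Subsingleton.elim _ _
  exact om_iso H.irr (mk_eq_mk.1 h3) (nrm hxQ) (nrm hyQ)

/-- the p-part of an element of the inertial group centralizes `D` -/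
theorem mul_pr_inv {x : A} (hE : ¬ p ∣ eN D f) (hx : x ∈ St D f) : x * (pr p x)⁻¹ ∈ CD D := by
  have hpp : p.Prime := Fact.out
  obtain ⟨m, hm⟩ := exists_pow_mul_inv_pr (p := p) x
  have h1 : x * (pr p x)⁻¹ ∈ St D f := (St D f).mul_mem hx ((St D f).inv_mem (pr_mem hx))
  have h2 := CfAux.pow_eN h1
  refine mem_of_coprime (m := eN D f) (n := p ^ m) ?_ h2 (by rw [hm]; exact (CD D).one_mem)
  exact Nat.Coprime.pow_right _ ((Nat.Prime.coprime_iff_not_dvd hpp).2 hE).symm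

end

end Pool.Agent.Lib.P0c8ca5.Nc
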