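import Mathlib
import Pool.Agent.Lib.P0c8ca5Nc.CB

/-!
# CC: the symbols of the local blocks with trivial inertial quotient agree

`Step`: one step, from `Q` to `Q C_D(x)`, for `x` p-regular. `om_QD`: then the symbols of `Q` and of `D` agree.
PROOF. Downward induction on `Q`. Let `X` be generated by `x`, `y`; every element of `X` is `a z ^ m` where `C_D(a)` is not
contained in `Q` (`exists_dec`). For such `a` the step and the induction give the equality for the pairs `(a, g)`, `g` in `X`;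
the rest follows from bimultiplicativity, `om z z = 1`.
-/

set_option autoImplicit false
set_option linter.unusedSectionVars false

namespace Pool.Agent.Lib.P0c8ca5.Nc

open MonoidAlgebra Bq Ex Kq Gg Ps Zz

variable {p : ℕ} {k : Type*} [Field k] {A : Type*} [Group A]

/-- one step: from `Q` to `Q C_D(x)` -/
def Step (p : ℕ) (D : Subgroup A) (f i : MonoidAlgebra k A) : Prop :=
  ∀ (Q : Subgroup A) (x y : A) (c c' : MonoidAlgebra k A) (n n' : ℕ) (ρ : Rp k (CD Q) n)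
    (ρ' : Rp k (CD (Q ⊔ (D ⊓ C1 x))) n'), LR D f i c Q ρ → LR D f i c' (Q ⊔ (D ⊓ C1 x)) ρ' →
    x ∈ St D f → x ∈ Subgroup.normalizer (Q : Set A) → Preg p x → y ∈ St D f →
    y ∈ Subgroup.normalizer (Q : Set A) → y * x * y⁻¹ * x⁻¹ ∈ CD D →
    om (CD Q) ρ x y = om (CD (Q ⊔ (D ⊓ C1 x))) ρ' x y

theorem nrm_sup {g : A} {Q R : Subgroup A} (hQ : g ∈ Subgroup.normalizer (Q : Set A))
    (hR : g ∈ Subgroup.normalizer (R : Set A)) :
    g ∈ Subgroup.normalizer ((Q ⊔ R : Subgroup A) : Set A) := by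
  rw [← cg_eq_self_iff] at hQ hR ⊢
  unfold cg at hQ hR ⊢
  rw [Subgroup.map_sup, hQ, hR]

/-- `g` commutes with `x` modulo `C(D)`, so it normalizes the fixed points of `x` -/
theorem nrm_fix {g x : A} {D : Subgroup A} (hg : g ∈ Subgroup.normalizer (D : Set A))
    (hgx : g * x * g⁻¹ * x⁻¹ ∈ CD D) :
    g ∈ Subgroup.normalizer ((D ⊓ C1 x : Subgroup A) : Set A) := by
  have key : ∀ h : A, h ∈ Subgroup.normalizer (D : Set A) → h * x * h⁻¹ * x⁻¹ ∈ CD D →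
      ∀ u ∈ D ⊓ C1 x, h * u * h⁻¹ ∈ D ⊓ C1 x := by
    intro h hh hc u hu
    have hu1 := (Subgroup.mem_inf.1 hu).1
    have hu2 := Subgroup.mem_centralizer_singleton_iff.1 (Subgroup.mem_inf.1 hu).2
    have h1 : h * u * h⁻¹ ∈ D := (Subgroup.mem_normalizer_iff.1 hh u).1 hu1
    refine Subgroup.mem_inf.2 ⟨h1, ?_⟩
    rw [Subgroup.mem_centralizer_singleton_iff]
    set w := h * u * h⁻¹ with hw
    set c := h * x * h⁻¹ * x⁻¹ with hcd
    have h2 : w * c = c * w := Subgroup.mem_centralizer_iff.1 hc w h1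
    have e1 : c * x = h * x * h⁻¹ := by rw [hcd]; group
    have h3 : c * (w * x) = c * (x * w) := by
      calc c * (w * x) = (c * w) * x := by group
        _ = (w * c) * x := by rw [h2]
        _ = w * (c * x) := by group
        _ = w * (h * x * h⁻¹) := by rw [e1]
        _ = h * (u * x) * h⁻¹ := by rw [hw]; group
        _ = h * (x * u) * h⁻¹ := by rw [hu2]
        _ = (h * x * h⁻¹) * w := by rw [hw]; group
        _ = (c * x) * w := by rw [e1]
        _ = c * (x * w) := by group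
    exact mul_left_cancel h3
  have hg' : g⁻¹ ∈ Subgroup.normalizer (D : Set A) := Subgroup.inv_mem _ hg
  have hgx' : g⁻¹ * x * g⁻¹⁻¹ * x⁻¹ ∈ CD D := by
    have h1 := (CD D).inv_mem (CbAux.conj_cent hg' hgx)
    have e : (g⁻¹ * (g * x * g⁻¹ * x⁻¹) * g⁻¹⁻¹)⁻¹ = g⁻¹ * x * g⁻¹⁻¹ * x⁻¹ := by group
    rwa [e] at h1
  rw [Subgroup.mem_normalizer_iff]
  intro u
  refine ⟨key g hg hgx u, fun h => ?_⟩
  have h2 := key g⁻¹ hg' hgx' _ h
  have e : g⁻¹ * (g * u * g⁻¹) * g⁻¹⁻¹ = u := by group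
  rwa [e] at h2

section
variable [Fact p.Prime] [CharP k p] [IsAlgClosed k] [Fintype A]
variable {b f i : MonoidAlgebra k A} {D : Subgroup A}

theorem om_QD' (hp : p ≠ 2) (h : Src p b D f i) (hE : ¬ p ∣ eN D f) (hS : Step p D f i)
    (Q : Subgroup A) : ∀ (c : MonoidAlgebra k A) (n : ℕ) (ρ : Rp k (CD Q) n)
      (_ : LR D f i c Q ρ) (c' : MonoidAlgebra k A) (n' : ℕ) (ρ' : Rp k (CD D) n')
      (_ : LR D f i c' D ρ') (x y : A) (_ : x ∈ St D f)
      (_ : x ∈ Subgroup.normalizer (Q : Set A)) (_ : y ∈ St D f)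
      (_ : y ∈ Subgroup.normalizer (Q : Set A)) (_ : y * x * y⁻¹ * x⁻¹ ∈ CD D),
      om (CD Q) ρ x y = om (CD D) ρ' x y := by
  have hpp : p.Prime := Fact.out
  induction Q using (wellFounded_gt : WellFounded
    ((· > ·) : Subgroup A → Subgroup A → Prop)).induction with
  | _ Q ih => ?_
  intro c n ρ H c' n' ρ' H' x y hx hxQ hy hyQ hxy
  by_cases hQD : Q = D
  · subst hQD
    exact LR.eq hp h H H' hxQ hyQ
  have hSD : St D f ≤ Subgroup.normalizer (D : Set A) := fun g hg => hg.1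
  set X := Subgroup.closure ({x, y} : Set A) with hX
  have hXS : X ≤ St D f := by
    rw [hX, Subgroup.closure_le]
    rintro z (rfl | rfl)
    · exact hx
    · exact hy
  have hXQ : X ≤ Subgroup.normalizer (Q : Set A) := by
    rw [hX, Subgroup.closure_le]
    rintro z (rfl | rfl)
    · exact hxQ
    · exact hyQ
  have hcc := CbAux.comm_closure (hSD hx) (hSD hy) hxy
  obtain ⟨z, hz, hdec⟩ := exists_dec (p := p) h.root.com h.root.dfg.isPGroup H.le hQD (hSD hx)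
    (hSD hy) hxQ hyQ hxy (fun g hg => ⟨eN D f,
      ((Nat.Prime.coprime_iff_not_dvd hpp).2 hE).symm, CfAux.pow_eN (hXS hg)⟩)
  have hle : CD D ≤ CD Q := Subgroup.centralizer_le H.le
  have hnQ : ∀ g ∈ X, g ∈ Subgroup.normalizer (CD Q : Set A) := fun g hg => nrm (hXQ hg)
  have hnD : ∀ g ∈ X, g ∈ Subgroup.normalizer (CD D : Set A) := fun g hg =>
    nrm (hSD (hXS hg))
  -- the symbols are not zero
  have hneQ : ∀ g ∈ X, ∀ g' ∈ X, om (CD Q) ρ g g' ≠ 0 := fun g hg g' hg' =>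
    H.ne hp h (hXS hg) (hXQ hg) (hXS hg') (hXQ hg') (hcc g hg g' hg')
  have hneD : ∀ g ∈ X, ∀ g' ∈ X, om (CD D) ρ' g g' ≠ 0 := fun g hg g' hg' =>
    H'.ne hp h (hXS hg) (hSD (hXS hg)) (hXS hg') (hSD (hXS hg')) (hcc g hg g' hg')
  -- elements with fixed points outside `Q`
  have key : ∀ a ∈ X, (∃ m ∈ D, m ∉ Q ∧ a * m = m * a) → ∀ g ∈ X,
      om (CD Q) ρ a g = om (CD D) ρ' a g := by
    rintro a ha ⟨m, hm, hmQ, ham⟩ g hg
    set a' := pr p a with ha'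
    have ha'X : a' ∈ X := pr_mem ha
    have hmod : a * a'⁻¹ ∈ CD D := mul_pr_inv hE (hXS ha)
    have hm' : m ∈ D ⊓ C1 a' := by
      refine Subgroup.mem_inf.2 ⟨hm, ?_⟩
      rw [Subgroup.mem_centralizer_singleton_iff]
      exact (commute_pr (p := p) (show Commute m a from ham.symm)).eq
    set Q' := Q ⊔ (D ⊓ C1 a') with hQ'
    have hQQ' : Q' > Q := by
      refine lt_of_le_of_ne le_sup_left fun h1 => hmQ ?_
      rw [h1]
      exact (le_sup_right : D ⊓ C1 a' ≤ Q') hm'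
    have hQ'D : Q' ≤ D := sup_le H.le inf_le_left
    have hnQ' : ∀ g ∈ X, g ∈ Subgroup.normalizer (Q' : Set A) := fun g hg =>
      nrm_sup (hXQ hg) (nrm_fix (hSD (hXS hg)) (hcc a' ha'X g hg))
    obtain ⟨c₁, n₁, ρ₁, H₁⟩ := exists_LR h hQ'D (H.reg.mono hQQ'.le)
    have h1 := hS Q a' g c c₁ n n₁ ρ ρ₁ H H₁ (hXS ha'X) (hXQ ha'X) (preg_pr a) (hXS hg)
      (hXQ hg) (hcc a' ha'X g hg)
    have h2 := ih Q' hQQ' c₁ n₁ ρ₁ H₁ c' n' ρ' H' a' g (hXS ha'X) (hnQ' a' ha'X) (hXS hg)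
      (hnQ' g hg) (hcc a' ha'X g hg)
    have hgg : g * g⁻¹ ∈ CD D := by rw [mul_inv_cancel]; exact (CD D).one_mem
    rw [om_congr H.irr (hnQ a' ha'X) (hnQ g hg) (hle hmod) (hle hgg), h1, h2,
      om_congr H'.irr (hnD a' ha'X) (hnD g hg) hmod hgg]
  -- the general case
  obtain ⟨m, a, ha, hxa, hfa⟩ := hdec x (Subgroup.subset_closure (Set.mem_insert _ _))
  obtain ⟨m', a', ha', hya, hfa'⟩ := hdec y
    (Subgroup.subset_closure (Set.mem_insert_of_mem _ rfl))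
  have hyX : y ∈ X := Subgroup.subset_closure (Set.mem_insert_of_mem _ rfl)
  have hzm : ∀ j : ℕ, z ^ j ∈ X := fun j => X.pow_mem hz j
  have e1 : om (CD Q) ρ x y = om (CD Q) ρ a y * (om (CD Q) ρ a' (z ^ m))⁻¹ := by
    rw [hxa, om_mul_left H.irr (hnQ a ha) (hnQ _ (hzm m)) (hnQ y hyX) (hneQ a ha y hyX)
      (hneQ _ (hzm m) y hyX)]
    congr 1
    rw [hya, om_mul_right H.irr (hnQ _ (hzm m)) (hnQ a' ha') (hnQ _ (hzm m'))
      (hneQ _ (hzm m) a' ha') (hneQ _ (hzm m) _ (hzm m')),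
      CaAux.om_pow H.irr (hnQ z hz) (H.itw hp h (hXS hz) (hXQ hz)), mul_one,
      om_symm H.irr (hnQ a' ha') (hnQ _ (hzm m))]
  have e2 : om (CD D) ρ' x y = om (CD D) ρ' a y * (om (CD D) ρ' a' (z ^ m))⁻¹ := by
    rw [hxa, om_mul_left H'.irr (hnD a ha) (hnD _ (hzm m)) (hnD y hyX) (hneD a ha y hyX)
      (hneD _ (hzm m) y hyX)]
    congr 1
    rw [hya, om_mul_right H'.irr (hnD _ (hzm m)) (hnD a' ha') (hnD _ (hzm m'))
      (hneD _ (hzm m) a' ha') (hneD _ (hzm m) _ (hzm m')),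
      CaAux.om_pow H'.irr (hnD z hz) (H'.itw hp h (hXS hz) (hSD (hXS hz))), mul_one,
      om_symm H'.irr (hnD a' ha') (hnD _ (hzm m))]
  rw [e1, e2, key a ha hfa y hyX, key a' ha' hfa' (z ^ m) (hzm m)]

theorem om_QD (hp : p ≠ 2) (h : Src p b D f i) (hE : ¬ p ∣ eN D f) (hS : Step p D f i)
    {Q : Subgroup A} {c : MonoidAlgebra k A} {n : ℕ} {ρ : Rp k (CD Q) n} (H : LR D f i c Q ρ)
    {c' : MonoidAlgebra k A} {n' : ℕ} {ρ' : Rp k (CD D) n'} (H' : LR D f i c' D ρ') {x y : A}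
    (hx : x ∈ St D f) (hxQ : x ∈ Subgroup.normalizer (Q : Set A)) (hy : y ∈ St D f)
    (hyQ : y ∈ Subgroup.normalizer (Q : Set A)) (hxy : y * x * y⁻¹ * x⁻¹ ∈ CD D) :
    om (CD Q) ρ x y = om (CD D) ρ' x y :=
  om_QD' hp h hE hS Q c n ρ H c' n' ρ' H' x y hx hxQ hy hyQ hxy

end

end Pool.Agent.Lib.P0c8ca5.Nc
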