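import Mathlib
import Pool.Agent.Lib.P0c8ca5Nc.CB

/-!
# CD: the symbol count

`count_one`: `N` is normal in `Y`, the blocks of `N` below the `Y`-invariant idempotent `f` are the conjugates of `c`, which has
the only irreducible representation `ρ`. Then `|N| |stb Y c| l(Y, f)` is the sum of the symbols `om N ρ x y` over the pairs
commuting modulo `N`.
`count`: for `N = C(M)`, `M ≤ D` with trivial inertial quotient, the sum over the pairs of the inertial group.
-/

set_option autoImplicit false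
set_option linter.unusedSectionVars false

namespace Pool.Agent.Lib.P0c8ca5.Nc

open MonoidAlgebra Bq Ex Kq Gg Ps Zz

variable {p : ℕ} {k : Type*} [Field k] {A : Type*} [Group A]

/-- the stabilizer of `c` in `Y` -/
def stb (Y : Subgroup A) (c : MonoidAlgebra k A) : Subgroup A where
  carrier := {g | g ∈ Y ∧ cj g c = c}
  mul_mem' := by
    rintro g h ⟨hg, hg'⟩ ⟨hh, hh'⟩
    exact ⟨Y.mul_mem hg hh, by rw [← cj_cj, hh', hg']⟩
  one_mem' := ⟨Y.one_mem, cj_one_left c⟩
  inv_mem' := by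
    rintro g ⟨hg, hg'⟩
    refine ⟨Y.inv_mem hg, ?_⟩
    have h : cj g⁻¹ (cj g c) = c := by rw [cj_cj, inv_mul_cancel, cj_one_left]
    rwa [hg'] at h

theorem mem_stb {Y : Subgroup A} {c : MonoidAlgebra k A} {g : A} :
    g ∈ stb Y c ↔ g ∈ Y ∧ cj g c = c := Iff.rfl

section
variable {N Y : Subgroup A} {c f : MonoidAlgebra k A} {n : ℕ} {ρ : Rp k N n}

/-- the irreducible representations in `f` are the conjugates of `ρ` -/
theorem exists_cls' (p : ℕ) [Fact p.Prime] [CharP k p] [IsAlgClosed k] [Fintype A] (hNY : N ≤ Y) (hn : Y ≤ Subgroup.normalizer (N : Set A))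
    (hf : SuppIn N f) (hfi : InvBy Y f) (hff : f * f = f) (hρ : Irr' ρ) (h1 : act ρ c = 1)
    (hc : IsBlock N c) (hcf : c * f = c) (hl : Nat.card (IrX N c) = 1)
    (htr : ∀ e, IsBlock N e → e * f = e → ∃ g ∈ Y, e = cj g c) :
    (∀ C : IrX N f, ∃ g : Y, Iso (Quotient.out C).ρ (tw (hn g.2) ρ)) ∧
      Nat.card (IrX N f) * Nat.card (stb Y c) = Nat.card Y := by
  classical
  have hfN : f ∈ fixAlg k N N := mem_fixAlg.2 ⟨hf, hfi.mono hNY⟩
  have hρf : act ρ f = 1 := by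
    have h3 := act_mul ρ (b := f) hc.suppIn
    rw [hcf, h1, one_mul] at h3
    exact h3.symm
  have htf : ∀ g : Y, act (tw (hn g.2) ρ) f = 1 := by
    intro g
    have h3 := SumOmAux.act_tw_cj' (hn g.2) ρ f
    rwa [invBy_iff_cj.1 hfi g g.2, hρf] at h3
  have htc : ∀ g : Y, act (tw (hn g.2) ρ) (cj (g : A) c) = 1 := by
    intro g
    rw [SumOmAux.act_tw_cj' (hn g.2) ρ c, h1]
  have hbc : ∀ g : Y, IsBlock N (cj (g : A) c) := by
    intro g
    have h3 := isBlock_cg hc g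
    rwa [cg_eq_self_iff.2 (hn g.2)] at h3
  have hlc : ∀ g : Y, Nat.card (IrX N (cj (g : A) c)) = 1 := by
    intro g
    have h3 := card_irX_cj (p := p) (g : A) hc.mem hc.idem
    rw [cg_eq_self_iff.2 (hn g.2), hl] at h3
    exact h3
  have huni : ∀ (g : Y) {m m' : ℕ} (σ : Rp k N m) (σ' : Rp k N m'), Irr' σ → Irr' σ' →
      act σ (cj (g : A) c) = 1 → act σ' (cj (g : A) c) = 1 → Iso σ σ' := by
    intro g m m' σ σ' h2 h2' h3 h3'
    have h4 := hlc g
    rw [Nat.card_eq_one_iff_unique] at h4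
    have := h4.1
    have h5 : (⟦mkIrr σ h2 h3⟧ : IrX N (cj (g : A) c)) = ⟦mkIrr σ' h2' h3'⟧ :=
      Subsingleton.elim _ _
    exact mk_eq_mk.1 h5
  let π : Y → IrX N f := fun g => ⟦mkIrr (tw (hn g.2) ρ) (hρ.tw (hn g.2)) (htf g)⟧
  have hex : ∀ C : IrX N f, ∃ g : Y, Iso (Quotient.out C).ρ (tw (hn g.2) ρ) := by
    intro C
    have hi : Irr' (Quotient.out C).ρ := irr_iff.1 (Quotient.out C).irr
    have hb : act (Quotient.out C).ρ f = 1 := act_iff.2 (Quotient.out C).blk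
    obtain ⟨e, ⟨he, hef⟩, hea⟩ := CaAux.exists_blk (p := p) hfN hff hi hb
    obtain ⟨g, hg, rfl⟩ := htr e he hef
    exact ⟨⟨g, hg⟩, huni ⟨g, hg⟩ _ _ hi (hρ.tw (hn hg)) hea (htc ⟨g, hg⟩)⟩
  refine ⟨hex, ?_⟩
  have hπ : ∀ g g' : Y, π g = π g' ↔ cj (g : A) c = cj (g' : A) c := by
    intro g g'
    constructor
    · intro h
      have h3 : Iso (tw (hn g.2) ρ) (tw (hn g'.2) ρ) := mk_eq_mk.1 h
      exact CaAux.blk_unique (hρ.tw (hn g'.2)) (hbc g) (hbc g') (act_iso h3 (htc g)) (htc g')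
    · intro h
      refine mk_eq_mk.2 (huni g _ _ (hρ.tw (hn g.2)) (hρ.tw (hn g'.2)) (htc g) ?_)
      rw [h]
      exact htc g'
  have hsur : Function.Surjective π := by
    intro C
    obtain ⟨g, hg⟩ := hex C
    refine ⟨g, ?_⟩
    rw [← Quotient.out_eq C]
    exact mk_eq_mk.2 hg.symm
  set H : Subgroup Y := (stb Y c).subgroupOf Y with hH
  have hrel : ∀ g g' : Y, g⁻¹ * g' ∈ H ↔ cj (g : A) c = cj (g' : A) c := by
    intro g g'
    rw [hH, Subgroup.mem_subgroupOf, mem_stb, Subgroup.coe_mul, Subgroup.coe_inv]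
    constructor
    · rintro ⟨_, h⟩
      have h3 := congrArg (cj (g : A)) h
      rw [cj_cj, mul_inv_cancel_left] at h3
      exact h3.symm
    · intro h
      refine ⟨Y.mul_mem (Y.inv_mem g.2) g'.2, ?_⟩
      rw [← cj_cj, ← h, cj_cj, inv_mul_cancel, cj_one_left]
  let F : Y ⧸ H → IrX N f := Quotient.lift π (fun g g' h => by
    rw [hπ, ← hrel]
    exact QuotientGroup.leftRel_apply.1 h)
  have hF : Function.Bijective F := by
    constructor
    · intro a b
      induction a using Quotient.inductionOn with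
      | h g =>
        induction b using Quotient.inductionOn with
        | h g' =>
          intro h
          have h3 : π g = π g' := h
          rw [hπ, ← hrel] at h3
          exact Quotient.sound (QuotientGroup.leftRel_apply.2 h3)
    · intro C
      obtain ⟨g, hg⟩ := hsur C
      exact ⟨(g : Y ⧸ H), hg⟩
  have h4 := Subgroup.card_eq_card_quotient_mul_card_subgroup H
  have h5 : Nat.card H = Nat.card (stb Y c) := by
    rw [hH]
    have hle : stb Y c ≤ Y := fun g hg => (mem_stb.1 hg).1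
    exact Nat.card_congr (Subgroup.subgroupOfEquivOfLe hle).toEquiv
  rw [h5, Nat.card_congr (Equiv.ofBijective F hF)] at h4
  exact h4.symm

open Classical in
theorem count_one [Fact p.Prime] [CharP k p] [IsAlgClosed k] [Fintype A] (hNY : N ≤ Y) (hn : Y ≤ Subgroup.normalizer (N : Set A))
    (hf : SuppIn N f) (hfi : InvBy Y f) (hff : f * f = f) (hρ : Irr' ρ) (h1 : act ρ c = 1)
    (hc : IsBlock N c) (hcf : c * f = c) (hl : Nat.card (IrX N c) = 1)
    (htr : ∀ e, IsBlock N e → e * f = e → ∃ g ∈ Y, e = cj g c) :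
    ((Nat.card N * Nat.card (stb Y c) * Nat.card (IrX Y f) : ℕ) : WittVector p k)
      = ∑ z ∈ (prs N Y).filter (fun z => Prm p N z.1),
        WittVector.teichmuller p (om N ρ z.1 z.2) := by
  obtain ⟨hex, hcard⟩ := exists_cls' p hNY hn hf hfi hff hρ h1 hc hcf hl htr
  have : Fintype (IrX N f) := Fintype.ofFinite _
  set S := ∑ z ∈ (prs N Y).filter (fun z => Prm p N z.1),
    WittVector.teichmuller p (om N ρ z.1 z.2) with hS
  have hirr : ∀ C : IrX N f, Irr' (Quotient.out C).ρ := fun C => irr_iff.1 (Quotient.out C).irr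
  have hC : ∀ C : IrX N f, ∑ z ∈ (prs N Y).filter (fun z => Prm p N z.1),
      WittVector.teichmuller p (omX N f C z.1 z.2) = S := by
    intro C
    obtain ⟨g, hg⟩ := hex C
    have hgY := g.2
    have hmem : ∀ h ∈ Y, ∀ z ∈ (prs N Y).filter (fun z => Prm p N z.1),
        (h * z.1 * h⁻¹, h * z.2 * h⁻¹) ∈ (prs N Y).filter (fun z => Prm p N z.1) := by
      intro h hh z hz
      rw [Finset.mem_filter, mem_prs] at hz ⊢
      obtain ⟨⟨hz1, hz2, hz3⟩, hz4⟩ := hz
      have e1 : h * z.1 * h⁻¹ ∈ Y := Y.mul_mem (Y.mul_mem hh hz1) (Y.inv_mem hh)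
      have e2 : h * z.2 * h⁻¹ ∈ Y := Y.mul_mem (Y.mul_mem hh hz2) (Y.inv_mem hh)
      refine ⟨⟨e1, e2, ?_⟩, ?_⟩
      · have e3 := (Subgroup.mem_normalizer_iff.1 (hn hh) _).1 hz3
        have e4 : h * (z.2 * z.1 * z.2⁻¹ * z.1⁻¹) * h⁻¹ =
            (h * z.2 * h⁻¹) * (h * z.1 * h⁻¹) * (h * z.2 * h⁻¹)⁻¹ * (h * z.1 * h⁻¹)⁻¹ := by
          group
        rwa [e4] at e3
      · refine OrbPAux.prm_conj hn hz1 (Y.inv_mem hh) ?_ hz4
        have e5 : h⁻¹ * (h * z.1 * h⁻¹) * h⁻¹⁻¹ * z.1⁻¹ = 1 := by group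
        rw [e5]
        exact N.one_mem
    rw [hS]
    refine Finset.sum_bij' (fun z _ => ((g : A)⁻¹ * z.1 * (g : A)⁻¹⁻¹,
      (g : A)⁻¹ * z.2 * (g : A)⁻¹⁻¹)) (fun z _ => ((g : A) * z.1 * (g : A)⁻¹,
      (g : A) * z.2 * (g : A)⁻¹)) (fun z hz => hmem _ (Y.inv_mem hgY) z hz)
      (fun z hz => hmem _ hgY z hz) ?_ ?_ ?_
    · intro z _
      apply Prod.ext
      · show (g : A) * ((g : A)⁻¹ * z.1 * (g : A)⁻¹⁻¹) * (g : A)⁻¹ = z.1
        group
      · show (g : A) * ((g : A)⁻¹ * z.2 * (g : A)⁻¹⁻¹) * (g : A)⁻¹ = z.2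
        group
    · intro z _
      apply Prod.ext
      · show (g : A)⁻¹ * ((g : A) * z.1 * (g : A)⁻¹) * (g : A)⁻¹⁻¹ = z.1
        group
      · show (g : A)⁻¹ * ((g : A) * z.2 * (g : A)⁻¹) * (g : A)⁻¹⁻¹ = z.2
        group
    · intro z hz
      have hz' := (Finset.mem_filter.1 (hmem _ (Y.inv_mem hgY) z hz)).1
      have hz'' := (Finset.mem_filter.1 hz).1
      rw [mem_prs] at hz' hz''
      congr 1
      have h3 : omX N f C z.1 z.2 = om N (tw (hn hgY) ρ) z.1 z.2 :=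
        om_iso (hirr C) hg (hn hz''.1) (hn hz''.2.1)
      have h4 := om_cj hρ (hn hz'.1) (hn hz'.2.1) (hn hgY)
      have e1 : (g : A) * ((g : A)⁻¹ * z.1 * (g : A)⁻¹⁻¹) * (g : A)⁻¹ = z.1 := by group
      have e2 : (g : A) * ((g : A)⁻¹ * z.2 * (g : A)⁻¹⁻¹) * (g : A)⁻¹ = z.2 := by group
      simp only at h4
      rw [e1, e2] at h4
      rw [h3, h4]
  have hmain := lfM (p := p) hNY hn hf hfi hff
  have h2 : ∑ z ∈ (prs N Y).filter (fun z => Prm p N z.1),
      ∑ᶠ C : IrX N f, WittVector.teichmuller p (omX N f C z.1 z.2)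
      = Nat.card (IrX N f) • S := by
    have h3 : ∀ z ∈ (prs N Y).filter (fun z => Prm p N z.1),
        ∑ᶠ C : IrX N f, WittVector.teichmuller p (omX N f C z.1 z.2)
          = ∑ C : IrX N f, WittVector.teichmuller p (omX N f C z.1 z.2) := fun z _ =>
      finsum_eq_sum_of_fintype _
    rw [Finset.sum_congr rfl h3, Finset.sum_comm, Finset.sum_congr rfl fun C _ => hC C,
      Finset.sum_const, Finset.card_univ, Nat.card_eq_fintype_card]
  rw [h2, ← hcard] at hmain
  have hne : ((Nat.card (IrX N f) : ℕ) : WittVector p k) ≠ 0 := by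
    intro h0
    have h3 : Nat.card (IrX N f) = 0 := wit_inj p (by rw [h0, Nat.cast_zero])
    rw [h3, zero_mul] at hcard
    exact (Nat.card_pos (α := Y)).ne hcard
  refine mul_left_cancel₀ hne ?_
  rw [← nsmul_eq_mul, ← nsmul_eq_mul, hmain, nsmul_eq_mul, ← Nat.cast_mul]
  congr 1
  ring

end

end Pool.Agent.Lib.P0c8ca5.Nc
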