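import Mathlib
import Pool.Agent.Lib.P0c8ca5Nc.CD

/-!
# CE: the symbol count over the inertial group

`count`: `M ≤ D` has trivial inertial quotient, `C(M) ≤ Y ≤ N(M)`, and `Y` fixes the local block `c` of `M` below `(D, f)`. Then
`|C(D)| |S| l(Y, c)`, `S = St D f ⊓ Y`, is the sum of the symbols of the simple module of `c` over the pairs of elements of `S`
that commute modulo `C(D)`.
-/

set_option autoImplicit false
set_option linter.unusedSectionVars false

namespace Pool.Agent.Lib.P0c8ca5.Nc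

open MonoidAlgebra Bq Ex Kq Gg Ps Zz

variable {p : ℕ} {k : Type*} [Field k] {A : Type*} [Group A]

theorem inf_St1 {D M Y : Subgroup A} {f : MonoidAlgebra k A} (hr : Reg D f M) (hM : M ≤ D)
    (hDS : CD D ≤ St D f) (hMY : CD M ≤ Y) : CD M ⊓ (St D f ⊓ Y) = CD D := by
  apply le_antisymm
  · rintro z ⟨hz1, hz2, _⟩
    exact hr z hz2 fun u hu => (Subgroup.mem_centralizer_iff.1 hz1 u hu).symm
  · exact le_inf (Subgroup.centralizer_le hM)
      (le_inf hDS ((Subgroup.centralizer_le hM).trans hMY))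

section
variable [Fact p.Prime] [CharP k p] [IsAlgClosed k] [Fintype A]
variable {b f i c : MonoidAlgebra k A} {D M Y : Subgroup A} {n : ℕ} {ρ : Rp k (CD M) n}

theorem mem_Y_iff (h : Src p b D f i) (hM : M ≤ D) (hc : Lb M i c)
    (hMY : CD M ≤ Y) (hY : Y ≤ Subgroup.normalizer (M : Set A)) (hYc : ∀ y ∈ Y, cj y c = c)
    {x : A} : x ∈ Y ↔ ∃ y ∈ CD M, ∃ s ∈ St D f ⊓ Y, x = y * s := by
  constructor
  · intro hx
    obtain ⟨y, hy, s, hs, rfl⟩ := (fix_iff1 h hM hc (hY hx)).1 (hYc x hx)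
    refine ⟨y, hy, s, ⟨hs, ?_⟩, rfl⟩
    have h1 := Y.mul_mem (Y.inv_mem (hMY hy)) hx
    rwa [inv_mul_cancel_left] at h1
  · rintro ⟨y, hy, s, hs, rfl⟩
    exact Y.mul_mem (hMY hy) (Subgroup.mem_inf.1 hs).2

open Classical in
theorem count (hp : p ≠ 2) (h : Src p b D f i) (hE : ¬ p ∣ eN D f) (H : LR D f i c M ρ)
    (hMY : CD M ≤ Y) (hY : Y ≤ Subgroup.normalizer (M : Set A)) (hYc : ∀ y ∈ Y, cj y c = c) :
    ((Nat.card (CD D) * Nat.card ↥(St D f ⊓ Y) * Nat.card (IrX Y c) : ℕ) : WittVector p k)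
      = ∑ z ∈ prs (CD D) (St D f ⊓ Y), WittVector.teichmuller p (om (CD M) ρ z.1 z.2) := by
  have hM := H.le
  have hDS := CD_le_St h.root.fblk
  have hn : Y ≤ Subgroup.normalizer (CD M : Set A) := fun w hw =>
    mem_normalizer_centralizer (hY hw)
  have hl := reg_one hp h hM H.reg H.lb
  have hci : InvBy Y c := invBy_iff_cj.2 hYc
  have hone := count_one (p := p) (Y := Y) (f := c) hMY hn H.lb.blk.suppIn hci H.lb.blk.idem
    H.irr H.one H.lb.blk H.lb.blk.idem hl (fun e he hec => ⟨1, Y.one_mem, by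
      rw [cj_one_left]
      rcases he.eq_or_mul_eq_zero H.lb.blk with h1 | h1
      · exact h1
      · rw [hec] at h1
        exact absurd h1 he.ne_zero⟩)
  have hstb : stb Y c = Y := le_antisymm (fun g hg => (mem_stb.1 hg).1)
    (fun g hg => mem_stb.2 ⟨hg, hYc g hg⟩)
  rw [hstb] at hone
  set S := ∑ z ∈ (prs (CD M) Y).filter (fun z => Prm p (CD M) z.1),
    WittVector.teichmuller p (om (CD M) ρ z.1 z.2) with hS
  set S' : Subgroup A := St D f ⊓ Y with hS'
  set T := ∑ z ∈ prs (CD D) S', WittVector.teichmuller p (om (CD M) ρ z.1 z.2) with hT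
  have hPx : ∀ x, x ∈ Y ↔ ∃ y ∈ CD M, ∃ s ∈ S', x = y * s := fun x =>
    mem_Y_iff h hM H.lb hMY hY hYc
  have hinf : CD M ⊓ S' = CD D := inf_St1 H.reg hM hDS hMY
  have hStn : S' ≤ Subgroup.normalizer (CD M : Set A) := inf_le_right.trans hn
  let G : A → A → WittVector p k := fun x y =>
    if y * x * y⁻¹ * x⁻¹ ∈ CD M then WittVector.teichmuller p (om (CD M) ρ x y) else 0
  have hprm : ∀ x ∈ Y, Prm p (CD M) x := by
    intro x hx
    obtain ⟨y, hy, s, hs, rfl⟩ := (hPx x).1 hx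
    refine ⟨eN D f, hE, ?_⟩
    have h1 := CfAux.pow_cong hy (hStn hs) (eN D f)
    have h2 := (CD M).mul_mem h1
      (Subgroup.centralizer_le hM (CfAux.pow_eN (Subgroup.mem_inf.1 hs).1))
    rwa [inv_mul_cancel_right] at h2
  -- the sum over `Y`
  have hSG : S = ∑ x ∈ Finset.univ.filter (fun x => x ∈ Y),
      ∑ y ∈ Finset.univ.filter (fun y => y ∈ Y), G x y := by
    rw [← Finset.sum_product' (f := G), hS]
    have h1 : ((Finset.univ.filter (fun x => x ∈ Y)) ×ˢ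
        (Finset.univ.filter (fun x => x ∈ Y))).filter
        (fun z : A × A => z.2 * z.1 * z.2⁻¹ * z.1⁻¹ ∈ CD M) =
        (prs (CD M) Y).filter (fun z => Prm p (CD M) z.1) := by
      ext z
      simp only [Finset.mem_filter, Finset.mem_univ, true_and, Finset.mem_product, mem_prs]
      constructor
      · rintro ⟨⟨h1, h2⟩, h3⟩
        exact ⟨⟨h1, h2, h3⟩, hprm _ h1⟩
      · rintro ⟨⟨h1, h2, h3⟩, -⟩
        exact ⟨⟨h1, h2⟩, h3⟩
    rw [← h1, Finset.sum_filter]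
  -- the sum over the inertial group
  have hGc : ∀ (n₁ n₂ : CD M) (h₁ h₂ : S'),
      G ((n₁ : A) * h₁) ((n₂ : A) * h₂) = G (h₁ : A) (h₂ : A) := by
    intro n₁ n₂ h₁ h₂
    show (if _ then _ else _) = (if _ then _ else _)
    simp only [comm_iff hStn n₁.2 n₂.2 h₁.2 h₂.2]
    split_ifs with hc
    · congr 1
      refine om_congr H.irr (hStn h₁.2) (hStn h₂.2) ?_ ?_
      · rw [mul_inv_cancel_right]; exact n₁.2
      · rw [mul_inv_cancel_right]; exact n₂.2
    · rfl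
  have h3 : ∀ x : A, ∑ n : CD M, ∑ h : S', G x ((n : A) * h) =
      Nat.card ↥(CD M ⊓ S') • ∑ y ∈ Finset.univ.filter (fun y => y ∈ Y), G x y := fun x =>
    Kq.sum_mul (CD M) S' (fun y => y ∈ Y) hPx (fun y => G x y)
  have h4 := Kq.sum_mul (CD M) S' (fun y => y ∈ Y) hPx
    (fun x => ∑ n : CD M, ∑ h : S', G x ((n : A) * h))
  have h5 : ∑ n₁ : CD M, ∑ h₁ : S', ∑ n₂ : CD M, ∑ h₂ : S',
      G ((n₁ : A) * h₁) ((n₂ : A) * h₂) =
      Nat.card (CD M) • Nat.card (CD M) • ∑ h₁ : S', ∑ h₂ : S', G (h₁ : A) (h₂ : A) := by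
    have h6 : ∀ (n₁ : CD M) (h₁ : S'), ∑ n₂ : CD M, ∑ h₂ : S',
        G ((n₁ : A) * h₁) ((n₂ : A) * h₂) =
        Nat.card (CD M) • ∑ h₂ : S', G (h₁ : A) (h₂ : A) := by
      intro n₁ h₁
      rw [Finset.sum_congr rfl fun n₂ _ => Finset.sum_congr rfl fun h₂ _ => hGc n₁ n₂ h₁ h₂,
        Finset.sum_const, Finset.card_univ, Nat.card_eq_fintype_card]
    rw [Finset.sum_congr rfl fun n₁ _ => Finset.sum_congr rfl fun h₁ _ => h6 n₁ h₁,
      Finset.sum_const, Finset.card_univ, ← Finset.smul_sum, Nat.card_eq_fintype_card]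
  have h6 : ∑ h₁ : S', ∑ h₂ : S', G (h₁ : A) (h₂ : A) = T := by
    rw [hT, ← Finset.sum_product' (f := fun (x y : S') => G (x : A) (y : A))]
    have e1 : ∀ z : S' × S', G (z.1 : A) (z.2 : A) =
        if (z.2 : A) * z.1 * (z.2 : A)⁻¹ * (z.1 : A)⁻¹ ∈ CD M then
          WittVector.teichmuller p (om (CD M) ρ z.1 z.2) else 0 := fun z => rfl
    rw [Finset.sum_congr rfl fun z _ => e1 z, ← Finset.sum_filter]
    refine Finset.sum_bij (fun z _ => ((z.1 : A), (z.2 : A))) ?_ ?_ ?_ ?_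
    · intro z hz
      rw [mem_prs]
      refine ⟨z.1.2, z.2.2, ?_⟩
      rw [← hinf]
      exact ⟨(Finset.mem_filter.1 hz).2, S'.mul_mem (S'.mul_mem
        (S'.mul_mem z.2.2 z.1.2) (S'.inv_mem z.2.2)) (S'.inv_mem z.1.2)⟩
    · rintro ⟨x, y⟩ _ ⟨x', y'⟩ _ h
      simp only [Prod.mk.injEq] at h
      exact Prod.ext (Subtype.ext h.1) (Subtype.ext h.2)
    · rintro ⟨x, y⟩ hz
      obtain ⟨hx, hy, hxy⟩ := mem_prs.1 hz
      refine ⟨(⟨x, hx⟩, ⟨y, hy⟩), ?_, rfl⟩
      rw [Finset.mem_filter]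
      exact ⟨Finset.mem_product.2 ⟨Finset.mem_univ _, Finset.mem_univ _⟩,
        Subgroup.centralizer_le hM hxy⟩
    · intro z _
      rfl
  have hcards : Nat.card (CD D) * Nat.card Y = Nat.card (CD M) * Nat.card S' := by
    have h1 := Kq.sum_mul (CD M) S' (fun y => y ∈ Y) hPx (fun _ => (1 : ℕ))
    rw [Finset.sum_const, Finset.sum_const, Finset.sum_const, Finset.card_univ,
      Finset.card_univ, smul_eq_mul, smul_eq_mul, smul_eq_mul, smul_eq_mul, mul_one, mul_one,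
      hinf, ← Nat.card_eq_fintype_card, ← Nat.card_eq_fintype_card] at h1
    rw [h1]
    congr 1
    rw [Nat.card_eq_fintype_card, Fintype.card_subtype]
  have h7 : (Nat.card (CD D) ^ 2 : ℕ) • S = (Nat.card (CD M) ^ 2 : ℕ) • T := by
    rw [h5, h6, Finset.sum_congr rfl fun x _ => h3 x, ← Finset.smul_sum, ← hSG, hinf] at h4
    rw [sq, sq, mul_smul, mul_smul]
    exact h4.symm
  rw [← hone, nsmul_eq_mul, nsmul_eq_mul, ← Nat.cast_mul] at h7
  have hne : ((Nat.card (CD M) ^ 2 : ℕ) : WittVector p k) ≠ 0 := by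
    intro h0
    have h3 : Nat.card (CD M) ^ 2 = 0 := wit_inj p (by rw [h0, Nat.cast_zero])
    exact (Nat.card_pos (α := CD M)).ne' (pow_eq_zero_iff (two_ne_zero) |>.1 h3)
  refine mul_left_cancel₀ hne ?_
  rw [← h7, ← Nat.cast_mul]
  congr 1
  calc Nat.card (CD M) ^ 2 * (Nat.card (CD D) * Nat.card S' * Nat.card (IrX Y c))
      = Nat.card (CD M) * Nat.card (CD D) * Nat.card (IrX Y c) *
        (Nat.card (CD M) * Nat.card S') := by ring
    _ = Nat.card (CD M) * Nat.card (CD D) * Nat.card (IrX Y c) *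
        (Nat.card (CD D) * Nat.card Y) := by rw [hcards]
    _ = _ := by ring

end

end Pool.Agent.Lib.P0c8ca5.Nc
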