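import Mathlib
import Pool.Agent.Lib.P0c8ca5Nc.CC
import Pool.Agent.Lib.P0c8ca5Nc.CE

/-!
# CF: the simple modules over a local block with trivial inertial quotient

`l_eq_St'`: `e` is the block of `C(M)` below `(D, f)`, the elements of `St D f` in `C(M)` are in `C(D)`, `C(M) ≤ Y ≤ N(M)` and `Y`
fixes `e`. Then `l(Y, e) = l(St D f ⊓ Y, f)`, given one step of the comparison of the symbols.
-/

set_option autoImplicit false
set_option linter.unusedSectionVars false

namespace Pool.Agent.Lib.P0c8ca5.Nc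

open MonoidAlgebra Bq Ex Kq Gg Ps Zz

variable {p : ℕ} {k : Type*} [Field k] {A : Type*} [Group A]

section
variable [Fact p.Prime] [CharP k p] [IsAlgClosed k] [Fintype A]
variable {b f i e : MonoidAlgebra k A} {D M Y : Subgroup A}

theorem l_eq_St' (hp : p ≠ 2) (h : Src p b D f i) (hE : ¬ p ∣ eN D f) (hS : Step p D f i)
    (hM : M ≤ D) (hthin : ∀ s ∈ St D f, s ∈ CD M → s ∈ CD D) (he : IsBlock (CD M) e)
    (hef : resS (CD D : Set A) e * f = f) (hMY : CD M ≤ Y)
    (hY : Y ≤ Subgroup.normalizer (M : Set A)) (hYe : ∀ y ∈ Y, cj y e = e) :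
    Nat.card (IrX Y e) = Nat.card (IrX (St D f ⊓ Y) f) := by
  classical
  have hr : Reg D f M := fun g hg hu => hthin g hg (by
    rw [Subgroup.mem_centralizer_iff]
    exact fun u hu' => (hu u hu').symm)
  obtain ⟨c, n, ρ, H⟩ := exists_LR h hM hr
  have hec : e = c := uniq h hM he H.lb.blk hef (Lb.f_mul h hM H.lb)
  subst hec
  obtain ⟨c', n', ρ', H'⟩ := exists_LR h (le_refl D) (reg_self (f := f))
  have hcf : c' = f := lb_D h H'.lb
  subst hcf
  have h1 := count hp h hE H hMY hY hYe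
  have hDS := CD_le_St h.root.fblk
  have h2 := count (Y := St D c' ⊓ Y) hp h hE H'
    (le_inf hDS ((Subgroup.centralizer_le hM).trans hMY)) (fun y hy => hy.1.1)
    (fun y hy => hy.1.2)
  rw [← inf_assoc, inf_idem] at h2
  have h3 : ∑ z ∈ prs (CD D) (St D c' ⊓ Y), WittVector.teichmuller p (om (CD M) ρ z.1 z.2) =
      ∑ z ∈ prs (CD D) (St D c' ⊓ Y), WittVector.teichmuller p (om (CD D) ρ' z.1 z.2) := by
    refine Finset.sum_congr rfl fun z hz => ?_
    obtain ⟨hx, hy, hxy⟩ := mem_prs.1 hz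
    rw [om_QD hp h hE hS H H' hx.1 (hY hx.2) hy.1 (hY hy.2) hxy]
  rw [h3, ← h2] at h1
  have h4 := wit_inj p h1
  have h5 : 0 < Nat.card (CD D) * Nat.card ↥(St D c' ⊓ Y) := Nat.mul_pos Nat.card_pos Nat.card_pos
  exact Nat.eq_of_mul_eq_mul_left h5 h4

end

end Pool.Agent.Lib.P0c8ca5.Nc
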