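import Mathlib
import Pool.Agent.Lib.P0c8ca5Nc.CF
import Pool.Agent.Lib.P0c8ca5Kn.Sf

/-!
# CG: the simple modules over a local block with trivial inertial quotient

`l_eq_St`: `e` is the block of `C(M)` below `(D, f)`, the elements of `St D f` in `C(M)` are in `C(D)`, `C(M) ≤ Y ≤ N(M)` and `Y`
fixes `e`. Then `l(Y, e) = l(St D f ⊓ Y, f)`.
-/

set_option autoImplicit false
set_option linter.unusedSectionVars false

namespace Pool.Agent.Lib.P0c8ca5.Nc

open MonoidAlgebra Bq Ex Kq Gg Ps Zz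

variable {p : ℕ} {k : Type*} [Field k] {A : Type*} [Group A]

section
variable [Fact p.Prime] [CharP k p] [IsAlgClosed k] [Fintype A]
variable {b f i e : MonoidAlgebra k A} {D M Y : Subgroup A}

theorem step (hp : p ≠ 2) (h : Src p b D f i) (hE : ¬ p ∣ eN D f) : Step p D f i := by
  intro Q x y c c' n n' ρ ρ' H H' hx hxQ _ hy hyQ hxy
  exact Kn.om_step h hE H.le H.reg hx hxQ hy hyQ hxy rfl H.lb H'.lb
    (reg_one hp h H.le H.reg H.lb) (reg_one hp h H'.le H'.reg H'.lb) H.irr H.one H'.irr H'.one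

theorem l_eq_St (hp : p ≠ 2) (h : Src p b D f i) (hE : ¬ p ∣ eN D f)
    (hM : M ≤ D) (hthin : ∀ s ∈ St D f, s ∈ CD M → s ∈ CD D) (he : IsBlock (CD M) e)
    (hef : resS (CD D : Set A) e * f = f) (hMY : CD M ≤ Y)
    (hY : Y ≤ Subgroup.normalizer (M : Set A)) (hYe : ∀ y ∈ Y, cj y e = e) :
    Nat.card (IrX Y e) = Nat.card (IrX (St D f ⊓ Y) f) :=
  l_eq_St' hp h hE (step hp h hE) hM hthin he hef hMY hY hYe

end

end Pool.Agent.Lib.P0c8ca5.Nc
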