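import Mathlib
import Pool.Agent.Lib.P0c8ca5Nc.CG
import Pool.Agent.Lib.P0c8ca5Kq.Cg

/-!
# CH: the case of a normal p-subgroup with trivial inertial quotient

`fong`: the irreducible representations of `Y` in `f` are those of the stabilizer of the block `c` in `c` (`c` has one
irreducible representation, the blocks of `N` below `f` are conjugate).
`l_eq_local`: `R ≤ D` is normal in the whole group and the elements of `St D f` in `C(R)` are in `C(D)`; then
`l(b) = kap D b`.
-/

set_option autoImplicit false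
set_option linter.unusedSectionVars false

namespace Pool.Agent.Lib.P0c8ca5.Nc

open MonoidAlgebra Bq Ex Kq Gg Ps Zz

variable {p : ℕ} {k : Type*} [Field k] {A : Type*} [Group A]

theorem fong (p : ℕ) [Fact p.Prime] [CharP k p] [IsAlgClosed k] [Fintype A] {N Y : Subgroup A}
    {c f : MonoidAlgebra k A} (hNY : N ≤ Y) (hn : Y ≤ Subgroup.normalizer (N : Set A))
    (hf : SuppIn N f) (hfi : InvBy Y f) (hff : f * f = f) (hc : IsBlock N c)
    (hcf : c * f = c) (hl : Nat.card (IrX N c) = 1)
    (htr : ∀ e, IsBlock N e → e * f = e → ∃ g ∈ Y, e = cj g c) :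
    Nat.card (IrX Y f) = Nat.card (IrX (stb Y c) c) := by
  classical
  obtain ⟨n, ρ, hρ, h1⟩ := Rk.CardDZAux.exists_rep hc
  have hNS : N ≤ stb Y c := fun g hg => mem_stb.2 ⟨hNY hg, invBy_iff_cj.1 hc.invBy g hg⟩
  have hSY : stb Y c ≤ Y := fun g hg => (mem_stb.1 hg).1
  have hci : InvBy (stb Y c) c := invBy_iff_cj.2 fun g hg => (mem_stb.1 hg).2
  have e1 := count_one (p := p) hNY hn hf hfi hff hρ h1 hc hcf hl htr
  have e2 := count_one (p := p) (Y := stb Y c) (f := c) hNS (hSY.trans hn) hc.suppIn hci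
    hc.idem hρ h1 hc hc.idem hl (fun e he hec => ⟨1, Subgroup.one_mem _, by
      rw [cj_one_left]
      rcases he.eq_or_mul_eq_zero hc with h2 | h2
      · exact h2
      · rw [hec] at h2
        exact absurd h2 he.ne_zero⟩)
  have hss : stb (stb Y c) c = stb Y c := le_antisymm (fun g hg => (mem_stb.1 hg).1)
    (fun g hg => mem_stb.2 ⟨hg, (mem_stb.1 hg).2⟩)
  rw [hss] at e2
  have e3 : ∑ z ∈ (prs N (stb Y c)).filter (fun z => Prm p N z.1),
      WittVector.teichmuller p (om N ρ z.1 z.2) =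
      ∑ z ∈ (prs N Y).filter (fun z => Prm p N z.1),
        WittVector.teichmuller p (om N ρ z.1 z.2) := by
    refine Finset.sum_subset ?_ ?_
    · intro z hz
      rw [Finset.mem_filter, mem_prs] at hz ⊢
      exact ⟨⟨hSY hz.1.1, hSY hz.1.2.1, hz.1.2.2⟩, hz.2⟩
    · intro z hz hz'
      rw [Finset.mem_filter, mem_prs] at hz hz'
      obtain ⟨⟨hx, hy, hxy⟩, hxp⟩ := hz
      have h3 : om N ρ z.1 z.2 = 0 := by
        by_contra h4
        obtain ⟨h5, h6, _⟩ := (om_ne_zero_iff hρ (hn hx) (hn hy)).1 h4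
        exact hz' ⟨⟨mem_stb.2 ⟨hx, (CaAux.fix_iff hρ hc h1 hl (hn hx)).1 h5⟩,
          mem_stb.2 ⟨hy, (CaAux.fix_iff hρ hc h1 hl (hn hy)).1 h6⟩, hxy⟩, hxp⟩
      rw [h3]
      exact WittVector.teichmuller_zero p
  rw [e3, ← e1] at e2
  have e4 := wit_inj p e2
  have h5 : 0 < Nat.card N * Nat.card (stb Y c) := Nat.mul_pos Nat.card_pos Nat.card_pos
  exact (Nat.eq_of_mul_eq_mul_left h5 e4).symm

/-- a central idempotent is supported in the centralizer of a normal p-subgroup -/
theorem resS_self [Fact p.Prime] [CharP k p] [IsAlgClosed k] [Fintype A] {R : Subgroup A}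
    (hR : IsPGroup p R) (hn : Subgroup.normalizer (R : Set A) = ⊤) {b : MonoidAlgebra k A}
    (hb : b ∈ fixAlg k (⊤ : Subgroup A) ⊤) (hbb : b * b = b) :
    resS (CD R : Set A) b = b := by
  set s := resS (CD R : Set A) b with hs
  have hsm : s ∈ fixAlg k (⊤ : Subgroup A) ⊤ := CfAux.res_mem hb le_top hn.ge
  have hss : s * s = s := CfAux.res_idem (p := p) hb hbb hR
  have hsb : s * b = b * s := commute_of (K := (⊤ : Subgroup A))
    (fun x _ => Subgroup.mem_top x) (mem_fixAlg.1 hb).2
  have hv : b - s ∈ fixAlg k (⊤ : Subgroup A) ⊤ := Subalgebra.sub_mem _ hb hsm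
  have h0 : ∀ x ∈ Subgroup.centralizer (R : Set A), (b - s).coeff x = 0 := by
    intro x hx
    rw [coeff_sub, Finsupp.sub_apply, hs, coeff_resS_of_mem _ hx, sub_self]
  have hnil := Id.nil_sub (p := p) (Q := R) (U := ⊤) le_top hn.ge hR hv h0
  have h3 : (b - s) * (b - s) * (b - s) = b - s := by
    have e1 : (b - s) * (b - s) = b - s * b - s * b + s := by
      rw [sub_mul, mul_sub, mul_sub, hbb, hss, ← hsb]
      abel
    have e2 : s * b * b = s * b := by rw [mul_assoc, hbb]
    have e3 : s * b * s = s * b := by rw [mul_assoc, ← hsb, ← mul_assoc, hss]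
    rw [e1, mul_sub]
    have e4 : (b - s * b - s * b + s) * b = b - s * b := by
      rw [add_mul, sub_mul, sub_mul, hbb, e2]
      abel
    have e5 : (b - s * b - s * b + s) * s = s - s * b := by
      rw [add_mul, sub_mul, sub_mul, hss, e3, ← hsb]
      abel
    rw [e4, e5]
    abel
  have h4 : ∀ m : ℕ, (b - s) ^ (2 * m + 1) = b - s := by
    intro m
    induction m with
    | zero => rw [mul_zero, zero_add, pow_one]
    | succ m ih =>
      have e : 2 * (m + 1) + 1 = (2 * m + 1) + 1 + 1 := by ring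
      rw [e, pow_succ, pow_succ, ih, h3]
  obtain ⟨m, hm⟩ := hnil
  have h5 : b - s = 0 := by
    rw [← h4 m, show 2 * m + 1 = m + (m + 1) by ring, pow_add, hm, zero_mul]
  exact (sub_eq_zero.1 h5).symm

section
variable [Fact p.Prime] [CharP k p] [IsAlgClosed k] [Fintype A]
variable {b f i : MonoidAlgebra k A} {D R : Subgroup A}

theorem l_eq_local' (hp : p ≠ 2) (h : Src p b D f i) (hE : ¬ p ∣ eN D f) (hS : Step p D f i)
    (hR : R ≤ D) (hn : Subgroup.normalizer (R : Set A) = ⊤)
    (hreg : ∀ g ∈ St D f, (∀ u ∈ R, g * u = u * g) → g ∈ CD D) :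
    Nat.card (IrX (⊤ : Subgroup A) b) = kap D b := by
  have hb := h.root.blk.mem
  have hbb := h.root.blk.idem
  have hDp := h.root.dfg.isPGroup
  have hRp := hDp.to_le hR
  obtain ⟨c, hc⟩ := exists_lb h hR
  have hbc : Bel D f R c 1 := bel_one h hR hc
  have hlc := reg_one hp h hR hreg hc
  have hSR : St D f ≤ Subgroup.normalizer (R : Set A) := by rw [hn]; exact le_top
  -- the blocks of `C(R)` below `b` are conjugate
  have h1 : Nat.card (IrX (⊤ : Subgroup A) (resS (CD R : Set A) b)) =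
      Nat.card (IrX (stb ⊤ c) c) := by
    refine fong p le_top (fun w _ => mem_normalizer_centralizer (by rw [hn]; trivial))
      resS_suppIn (mem_fixAlg.1 (CfAux.res_mem hb le_top hn.ge)).2
      (CfAux.res_idem (p := p) hb hbb hRp) hc.blk
      ((CfAux.below_iff hb hc.blk).2 (Lb.b_mul h hR hc)) hlc ?_
    intro e he heb
    obtain ⟨g, hg⟩ := exists_bel h hE hRp he ((CfAux.below_iff hb he).1 heb)
    have h2 := hbc.cj g
    have hgR : cg g R = R := cg_eq_self_iff.2 (by rw [hn]; trivial)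
    rw [mul_one, hgR] at h2
    have h3 : IsBlock (CD R) (cj g c) := by
      have h4 := blk_inv hc.blk g
      rwa [hgR] at h4
    exact ⟨g, Subgroup.mem_top g, Bel.unique h he h3 hg h2⟩
  -- the blocks of `C(D)` below `b` are conjugate
  have hfl := reg_one hp h (le_refl D) reg_self
    (c := f) (by
      obtain ⟨c', hc'⟩ := exists_lb h (le_refl D)
      rwa [lb_D h hc'] at hc')
  have hbf : Bel D f D f 1 := by
    obtain ⟨c', hc'⟩ := exists_lb h (le_refl D)
    have h2 := bel_one h (le_refl D) hc'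
    rwa [lb_D h hc'] at h2
  have h2 : kap D b = Nat.card (IrX (St D f) f) := by
    unfold kap
    have hst : St D f = stb (Subgroup.normalizer (D : Set A)) f := by
      ext g
      rw [mem_St, mem_stb]
    rw [hst]
    refine fong p (Subgroup.centralizer_le_normalizer _)
      (fun w hw => mem_normalizer_centralizer hw) resS_suppIn
      (mem_fixAlg.1 (CfAux.res_mem hb (Subgroup.centralizer_le_normalizer _) le_rfl)).2
      (CfAux.res_idem (p := p) hb hbb hDp) h.root.fblk
      ((CfAux.below_iff hb h.root.fblk).2 h.root.bf) hfl ?_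
    intro e he heb
    obtain ⟨g, hg⟩ := exists_bel h hE hDp he ((CfAux.below_iff hb he).1 heb)
    have hgD : cg g D = D := by
      have h3 : Nat.card (cg g D) = Nat.card D := card_cg g D
      exact (Subgroup.eq_of_le_of_card_ge hg.1 h3.le).symm
    have h4 := hbf.cj g
    rw [mul_one, hgD] at h4
    have h3 : IsBlock (CD D) (cj g f) := by
      have h5 := blk_inv h.root.fblk g
      rwa [hgD] at h5
    exact ⟨g, cg_eq_self_iff.1 hgD, Bel.unique h he h3 hg h4⟩
  have h3 : Nat.card (IrX (stb ⊤ c) c) = Nat.card (IrX (St D f ⊓ stb ⊤ c) f) := by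
    refine l_eq_St' hp h hE hS hR (fun s hs hs' => hreg s hs fun u hu =>
      (Subgroup.mem_centralizer_iff.1 hs' u hu).symm) hc.blk (Lb.f_mul h hR hc) ?_ ?_ ?_
    · exact fun g hg => mem_stb.2 ⟨Subgroup.mem_top g, invBy_iff_cj.1 hc.blk.invBy g hg⟩
    · rw [hn]
      exact le_top
    · exact fun y hy => (mem_stb.1 hy).2
  have h4 : St D f ⊓ stb ⊤ c = St D f := inf_eq_left.2 fun g hg =>
    mem_stb.2 ⟨Subgroup.mem_top g, fix_c h hR hc hg (hSR hg)⟩
  rw [h4] at h3
  rw [h2, ← h3, ← h1, resS_self hRp hn hb hbb]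

theorem l_eq_local (hp : p ≠ 2) (h : Src p b D f i) (hE : ¬ p ∣ eN D f)
    (hR : R ≤ D) (hn : Subgroup.normalizer (R : Set A) = ⊤)
    (hreg : ∀ g ∈ St D f, (∀ u ∈ R, g * u = u * g) → g ∈ CD D) :
    Nat.card (IrX (⊤ : Subgroup A) b) = kap D b :=
  l_eq_local' hp h hE (step hp h hE) hR hn hreg

end

end Pool.Agent.Lib.P0c8ca5.Nc
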