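import Mathlib
import Pool.Agent.Lib.P0c8ca5Bw.ChR
import Pool.Agent.Lib.P0c8ca5V.QCor
import Pool.Agent.Lib.P0c8ca5Kq.Cg

/-!
# Nc.CI: sums over the chains above a normal subgroup, weighted by an invariant function, are divisible by the order of the group
-/

set_option autoImplicit false
set_option linter.unusedSectionVars false

namespace Pool.Agent.Lib.P0c8ca5.Nc

open Bw QCorAux ChOrbAux

variable {p : ℕ} {A : Type*} [Group A]

theorem up_cgS_imp {R : Subgroup A} (hn : Subgroup.normalizer (R : Set A) = ⊤) (g : A)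
    {τ : Finset (Subgroup A)} (h : Up p R τ) : Up p R (cgS g τ) := by
  have hcgR : cg g R = R := cg_eq_self_iff.2 (hn ▸ Subgroup.mem_top g)
  refine ⟨(isCh_cgS g τ).2 h.1, ?_⟩
  intro P hP
  obtain ⟨Q, hQ, rfl⟩ := mem_cgS.1 hP
  refine ⟨?_, by rw [hn]; exact le_top⟩
  have h1 := h.2 Q hQ
  refine lt_of_le_of_ne ?_ ?_
  · have h2 := cg_le_cg (g := g) h1.1.le
    rwa [hcgR] at h2
  · intro h2
    apply h1.1.ne
    have h3 : cg g R = cg g Q := by rw [hcgR]; exact h2
    have h4 := congrArg (cg g⁻¹) h3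
    rwa [cg_cg, cg_cg, inv_mul_cancel, cg_one, cg_one] at h4

theorem up_cgS {R : Subgroup A} (hn : Subgroup.normalizer (R : Set A) = ⊤) (g : A)
    {τ : Finset (Subgroup A)} : Up p R (cgS g τ) ↔ Up p R τ := by
  constructor
  · intro h
    have := up_cgS_imp hn g⁻¹ h
    rwa [cgS_cgS, inv_mul_cancel, cgS_one] at this
  · exact up_cgS_imp hn g

theorem nonempty_cgS (g : A) {τ : Finset (Subgroup A)} :
    (cgS g τ).Nonempty ↔ τ.Nonempty := by
  rw [← Finset.card_pos, card_cgS, Finset.card_pos]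

open Classical in
/-- sums over the chains above a normal subgroup -/
theorem sum_up_dvd [Finite A] {R : Subgroup A} (hn : Subgroup.normalizer (R : Set A) = ⊤)
    [Fintype (Finset (Subgroup A))] (w : Finset (Subgroup A) → ℤ)
    (hw : ∀ g τ, Up p R τ → τ.Nonempty → w (cgS g τ) = w τ) :
    (Nat.card A : ℤ) ∣ ∑ τ ∈ (Finset.univ : Finset (Finset (Subgroup A))).filter
      (fun τ => Up p R τ ∧ τ.Nonempty), (Nat.card (sN τ) : ℤ) * w τ := by
  have h1 := sum_chR p (fun τ => if Up p R τ ∧ τ.Nonempty then w τ else 0) (by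
    intro g τ _
    by_cases h : Up p R τ ∧ τ.Nonempty
    · rw [if_pos h, if_pos ⟨up_cgS_imp hn g h.1, (nonempty_cgS g).2 h.2⟩]
      exact hw g τ h.1 h.2
    · rw [if_neg h, if_neg (fun h2 => h ⟨(up_cgS hn g).1 h2.1, (nonempty_cgS g).1 h2.2⟩)])
  refine ⟨∑ σ ∈ chR p A, if Up p R σ ∧ σ.Nonempty then w σ else 0, ?_⟩
  rw [← h1, finsum_eq_sum_of_fintype, Finset.sum_filter]
  refine Finset.sum_congr rfl fun τ _ => ?_
  by_cases h : Up p R τ ∧ τ.Nonempty
  · rw [if_pos h, if_pos h.1.1, if_pos h]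
  · rw [if_neg h]
    split_ifs <;> simp

end Pool.Agent.Lib.P0c8ca5.Nc
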