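import Mathlib
import Pool.Agent.Lib.P0c8ca5Nc.CI
import Pool.Agent.Lib.P0c8ca5Kk.Kj

/-!
# Nc.CJ: congruence forms of the local formula and of the alternating sum

`local_kap_dvd`: the local formula of Kk.Ki when the local numbers agree only modulo `q`.
`kR_eq_dvd`: the alternating sum for the image of `b` in the quotient by `R` agrees with `l(b) - kap D b` modulo `q`, if the
numbers of simple modules of the blocks of the stabilizers of the nonempty chains agree with the local numbers modulo `q`.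
-/

set_option autoImplicit false
set_option linter.unusedSectionVars false

namespace Pool.Agent.Lib.P0c8ca5.Nc

open MonoidAlgebra Bq Ex Kq QCorAux ChOrbAux Kk

section
variable {p : ℕ} {k : Type*} [Field k] {A : Type*} [Group A] [Fintype A]
variable [Fact p.Prime] [CharP k p] [IsAlgClosed k]
variable {b f i : MonoidAlgebra k A} {D M R U : Subgroup A}

open Classical in
/-- the local term: the chain `τ` and the conjugate `cg g D` -/
noncomputable def Gt (b : MonoidAlgebra k A) (D : Subgroup A) (τ : Finset (Subgroup A)) (g : A) :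
    ℤ :=
  if ∀ Q ∈ τ, Q ≤ cg g D then
    ((Nat.card ↥(Subgroup.normalizer (cg g D : Set A) ⊓ sN τ) *
      Nat.card (IrX (Subgroup.normalizer (cg g D : Set A) ⊓ sN τ)
        (resS (CD (cg g D) : Set A) b)) : ℕ) : ℤ)
  else 0

theorem gt_cgS (hb : b ∈ fixAlg k (⊤ : Subgroup A) ⊤) (hbb : b * b = b) (hD : IsPGroup p D)
    {τ : Finset (Subgroup A)} (hτ : IsCh p τ) (hne : τ.Nonempty) (x g : A) :
    Gt b D (cgS x τ) (x * g) = Gt b D τ g := by
  have hcj : cj x b = b := by
    ext y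
    have h1 := (mem_fixAlg.1 hb).2 x⁻¹ (Subgroup.mem_top _) y
    rw [inv_inv] at h1
    rw [coeff_cj, h1]
  have hxg : cg (x * g) D = cg x (cg g D) := (cg_cg x g D).symm
  have hiff : (∀ Q ∈ cgS x τ, Q ≤ cg (x * g) D) ↔ ∀ Q ∈ τ, Q ≤ cg g D := by
    rw [hxg]
    constructor
    · intro h Q hQ
      have h1 := h (cg x Q) (mem_cgS.2 ⟨Q, hQ, rfl⟩)
      have h2 := cg_le_cg (g := x⁻¹) h1
      rwa [cg_cg, cg_cg, inv_mul_cancel, cg_one, cg_one] at h2
    · intro h Q hQ
      obtain ⟨P, hP, rfl⟩ := mem_cgS.1 hQ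
      exact cg_le_cg (h P hP)
  unfold Gt
  by_cases hc : ∀ Q ∈ τ, Q ≤ cg g D
  · rw [if_pos hc, if_pos (hiff.2 hc)]
    obtain ⟨M, hM, hall, hsC, hCN, hNM⟩ := CgAux.exists_max hτ hne
    have hCV : CD (cg g D) ≤ Subgroup.normalizer (cg g D : Set A) ⊓ sN τ :=
      le_inf (Subgroup.centralizer_le_normalizer _)
        ((Subgroup.centralizer_le (hc M hM)).trans hCN)
    have h1 := CfAux.res_mem (M := cg g D) hb hCV inf_le_left
    have h2 := CfAux.res_idem (p := p) (M := cg g D) hb hbb (isPGroup_cg hD)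
    have h3 := card_irX_cj (p := p) x h1 h2
    rw [cg_inf, cg_normalizer, ← sN_cgS, ← FuAux.resS_cg, hcj, FuAux.cg_CD, ← hxg] at h3
    have h4 : Nat.card ↥(Subgroup.normalizer (cg (x * g) D : Set A) ⊓ sN (cgS x τ)) =
        Nat.card ↥(Subgroup.normalizer (cg g D : Set A) ⊓ sN τ) := by
      rw [← card_cg x (Subgroup.normalizer (cg g D : Set A) ⊓ sN τ), cg_inf, cg_normalizer,
        ← sN_cgS, ← hxg]
    rw [h3, h4]
  · rw [if_neg hc, if_neg (fun h => hc (hiff.1 h))]

theorem sum_gt_cgS (hb : b ∈ fixAlg k (⊤ : Subgroup A) ⊤) (hbb : b * b = b) (hD : IsPGroup p D)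
    {τ : Finset (Subgroup A)} (hτ : IsCh p τ) (hne : τ.Nonempty) (x : A) :
    ∑ g : A, Gt b D (cgS x τ) g = ∑ g : A, Gt b D τ g := by
  refine (Fintype.sum_equiv (Equiv.mulLeft x) _ _ fun g => ?_).symm
  exact (gt_cgS hb hbb hD hτ hne x g).symm

theorem l_cgS (hb : b ∈ fixAlg k (⊤ : Subgroup A) ⊤) (hbb : b * b = b)
    {τ : Finset (Subgroup A)} (hτ : IsCh p τ) (hne : τ.Nonempty) (x : A) :
    Nat.card (IrX (sN (cgS x τ)) (resS (Id.sC (cgS x τ) : Set A) b)) =
      Nat.card (IrX (sN τ) (resS (Id.sC τ : Set A) b)) := by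
  have hcj : cj x b = b := by
    ext y
    have h1 := (mem_fixAlg.1 hb).2 x⁻¹ (Subgroup.mem_top _) y
    rw [inv_inv] at h1
    rw [coeff_cj, h1]
  obtain ⟨M, hM, hall, hsC, hCN, hNM⟩ := CgAux.exists_max hτ hne
  have h1 := CfAux.res_mem (M := M) (Y := sN τ) hb hCN hNM
  have h2 := CfAux.res_idem (p := p) (M := M) hb hbb (hτ.2 M hM).1
  have h3 := card_irX_cj (p := p) x h1 h2
  rw [← hsC, ← FuAux.resS_cg, hcj, ← sN_cgS, ← Id.sC_cgS] at h3
  exact h3

open Classical in
/-- the toggle: the alternating sum of the local terms over the nonempty chains above `R` -/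
theorem sum_sum_gt (h : Src p b D f i) (hRD : R < D) (hn : Subgroup.normalizer (R : Set A) = ⊤)
    [Fintype (Finset (Subgroup A))] :
    ∑ τ ∈ (Finset.univ : Finset (Finset (Subgroup A))).filter
        (fun τ => Up p R τ ∧ τ.Nonempty), (-1 : ℤ) ^ τ.card * ∑ g : A, Gt b D τ g =
      -((Nat.card A : ℤ) *
        ((Nat.card (Subgroup.normalizer (D : Set A)) * kap D b : ℕ) : ℤ)) := by
  have hb := h.root.blk.mem
  have hbb := h.root.blk.idem
  have hbi : InvBy (⊤ : Subgroup A) b := h.root.blk.invBy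
  have hDp := h.root.dfg.isPGroup
  have hRp : IsPGroup p R := hDp.to_le hRD.le
  have hcj : ∀ g : A, cj g b = b := by
    intro g
    ext x
    have h1 := hbi g⁻¹ (Subgroup.mem_top _) x
    rw [inv_inv] at h1
    rw [coeff_cj, h1]
  have hcgR : ∀ g : A, cg g R = R := fun g => cg_eq_self_iff.2 (hn ▸ Subgroup.mem_top g)
  -- the terms of the sum over the conjugates of `D`
  let F : A → Subgroup A → ℤ := fun g V =>
    ((Nat.card V * Nat.card (IrX V (resS (CD (cg g D) : Set A) b)) : ℕ) : ℤ)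
  have hF : ∀ g : A, F g (Subgroup.normalizer (cg g D : Set A)) =
      ((Nat.card (Subgroup.normalizer (D : Set A)) * kap D b : ℕ) : ℤ) := by
    intro g
    have h0 : resS (CD D : Set A) b ∈ fixAlg k (Subgroup.normalizer (D : Set A))
        (Subgroup.normalizer (D : Set A)) :=
      DcAux.resS_mem' le_top le_rfl
        (inf_le_left.trans (Subgroup.centralizer_le_normalizer _)) hb
    have h0' : resS (CD D : Set A) b * resS (CD D : Set A) b = resS (CD D : Set A) b := by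
      have h6 : InvBy D b := hbi.mono le_top
      rw [← resS_mul hDp h6 h6, hbb]
    have h1 := card_irX_cj (p := p) g h0 h0'
    rw [cg_normalizer, ← FuAux.resS_cg, hcj, FuAux.cg_CD] at h1
    change ((Nat.card (Subgroup.normalizer (cg g D : Set A)) *
      Nat.card (IrX (Subgroup.normalizer (cg g D : Set A))
        (resS (CD (cg g D) : Set A) b)) : ℕ) : ℤ) = _
    rw [h1, ← cg_normalizer, card_cg]
    rfl
  -- the toggle
  have htog : ∀ g : A, ∑ τ ∈ (Finset.univ : Finset (Finset (Subgroup A))).filter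
      (fun τ => (Up p R τ ∧ τ.Nonempty) ∧ ∀ Q ∈ τ, Q ≤ cg g D),
      (-1 : ℤ) ^ τ.card * F g (Subgroup.normalizer (cg g D : Set A) ⊓ sN τ) =
      -((Nat.card (Subgroup.normalizer (D : Set A)) * kap D b : ℕ) : ℤ) := by
    intro g
    have hlt : R < cg g D := by
      rw [← hcgR g]
      refine lt_of_le_of_ne (cg_le_cg hRD.le) ?_
      intro h1
      have h2 := congrArg (cg g⁻¹) h1
      rw [cg_cg, cg_cg, inv_mul_cancel, cg_one, cg_one] at h2
      exact hRD.ne h2
    have h1 := toggle_top (p := p) (isPGroup_cg (g := g) hDp) hlt (hn ▸ le_top) (F g)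
    have h2 : (Finset.univ : Finset (Finset (Subgroup A))).filter
        (fun τ => Up p R τ ∧ ∀ Q ∈ τ, Q ≤ cg g D) =
        insert ∅ ((Finset.univ : Finset (Finset (Subgroup A))).filter
          (fun τ => (Up p R τ ∧ τ.Nonempty) ∧ ∀ Q ∈ τ, Q ≤ cg g D)) := by
      ext τ
      simp only [Finset.mem_filter, Finset.mem_univ, true_and, Finset.mem_insert]
      constructor
      · rintro ⟨h3, h4⟩
        rcases τ.eq_empty_or_nonempty with h5 | h5
        · exact Or.inl h5
        · exact Or.inr ⟨⟨h3, h5⟩, h4⟩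
      · rintro (rfl | ⟨⟨h3, _⟩, h4⟩)
        · refine ⟨⟨⟨?_, ?_⟩, ?_⟩, ?_⟩
          · simp
          · simp
          · simp
          · simp
        · exact ⟨h3, h4⟩
    have h3 : ∑ τ ∈ (Finset.univ : Finset (Finset (Subgroup A))).filter
        (fun τ => Up p R τ ∧ ∀ Q ∈ τ, Q ≤ cg g D),
        (-1 : ℤ) ^ τ.card * F g (Subgroup.normalizer (cg g D : Set A) ⊓ sN τ) = 0 :=
      Eq.trans (Finset.sum_congr (by
        ext τ
        simp only [Finset.mem_filter]) fun τ _ => rfl) h1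
    rw [h2, Finset.sum_insert (by simp), Finset.card_empty, pow_zero, one_mul, DcAux.sN_empty,
      inf_top_eq, hF] at h3
    linarith
  have h1 : ∀ τ ∈ (Finset.univ : Finset (Finset (Subgroup A))).filter
      (fun τ => Up p R τ ∧ τ.Nonempty), (-1 : ℤ) ^ τ.card * ∑ g : A, Gt b D τ g =
      ∑ g : A, if ∀ Q ∈ τ, Q ≤ cg g D then
        (-1 : ℤ) ^ τ.card * F g (Subgroup.normalizer (cg g D : Set A) ⊓ sN τ) else 0 := by
    intro τ _
    rw [Finset.mul_sum]
    refine Finset.sum_congr rfl fun g _ => ?_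
    unfold Gt
    by_cases hMg : ∀ Q ∈ τ, Q ≤ cg g D
    · rw [if_pos hMg, if_pos hMg]
    · rw [if_neg hMg, if_neg hMg, mul_zero]
  rw [Finset.sum_congr rfl h1, Finset.sum_comm]
  have h2 : ∀ g : A, ∑ τ ∈ (Finset.univ : Finset (Finset (Subgroup A))).filter
      (fun τ => Up p R τ ∧ τ.Nonempty), (if ∀ Q ∈ τ, Q ≤ cg g D then
        (-1 : ℤ) ^ τ.card * F g (Subgroup.normalizer (cg g D : Set A) ⊓ sN τ) else 0) =
      -((Nat.card (Subgroup.normalizer (D : Set A)) * kap D b : ℕ) : ℤ) := by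
    intro g
    rw [← Finset.sum_filter, Finset.filter_filter]
    exact htog g
  rw [Finset.sum_congr rfl fun g _ => h2 g, Finset.sum_const, Finset.card_univ,
    ← Nat.card_eq_fintype_card, nsmul_eq_mul]
  ring

open Classical in
/-- the local formula when the local numbers agree modulo `q` -/
theorem local_kap_dvd {q : ℤ} (h : Src p b D f i) (hM : IsPGroup p M) (hMU : CD M ≤ U)
    (hU : U ≤ Subgroup.normalizer (M : Set A))
    (hl : ∀ c, IsBlock U c → resS (CD M : Set A) b * c = c → ∀ g : A, M ≤ cg g D →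
      IsDefectGroup p U c (cg g D) → resS (CD (cg g D) : Set A) c * cj g f = cj g f →
      q ∣ (Nat.card (IrX U c) : ℤ) - (Nat.card (IrX (Subgroup.normalizer (cg g D : Set A) ⊓ U)
        (resS (CD (cg g D) : Set A) c)) : ℤ)) :
    ∃ L : ℕ, q ∣ (Nat.card (IrX U (resS (CD M : Set A) b)) : ℤ) - (L : ℤ) ∧
      Nat.card (Subgroup.normalizer (D : Set A)) * (Nat.card U * L) =
      ∑ g ∈ Finset.univ.filter (fun g : A => M ≤ cg g D),
        Nat.card ↥(Subgroup.normalizer (cg g D : Set A) ⊓ U) *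
          Nat.card (IrX (Subgroup.normalizer (cg g D : Set A) ⊓ U)
            (resS (CD (cg g D) : Set A) b)) := by
  obtain ⟨Bl, hbl, hlU, hloc⟩ := sum_loc h hM hMU hU
  have hex : ∀ c : MonoidAlgebra k A, ∃ g : A, c ∈ Bl → M ≤ cg g D ∧
      IsDefectGroup p U c (cg g D) ∧ resS (CD (cg g D) : Set A) c * cj g f = cj g f := by
    intro c
    by_cases hc : c ∈ Bl
    · obtain ⟨g, hg⟩ := exists_root h hM hMU hU (hbl c hc).1 (hbl c hc).2
      exact ⟨g, fun _ => hg⟩
    · exact ⟨1, fun h1 => absurd h1 hc⟩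
  choose γ hγ using hex
  refine ⟨∑ c ∈ Bl, Nat.card (IrX (Subgroup.normalizer (cg (γ c) D : Set A) ⊓ U)
    (resS (CD (cg (γ c) D) : Set A) c)), ?_, ?_⟩
  · rw [hlU]
    push_cast
    rw [← Finset.sum_sub_distrib]
    refine Finset.dvd_sum fun c hc => ?_
    obtain ⟨h1, h2, h3⟩ := hγ c hc
    exact hl c (hbl c hc).1 (hbl c hc).2 (γ c) h1 h2 h3
  · rw [Finset.mul_sum, Finset.mul_sum]
    have h1 : ∀ c ∈ Bl, Nat.card (Subgroup.normalizer (D : Set A)) * (Nat.card U *
        Nat.card (IrX (Subgroup.normalizer (cg (γ c) D : Set A) ⊓ U)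
          (resS (CD (cg (γ c) D) : Set A) c))) =
        ∑ g ∈ Finset.univ.filter (fun g : A => M ≤ cg g D),
          Nat.card ↥(Subgroup.normalizer (cg g D : Set A) ⊓ U) *
            Nat.card (IrX (Subgroup.normalizer (cg g D : Set A) ⊓ U)
              (resS (CD (cg g D) : Set A) c)) := by
      intro c hc
      obtain ⟨h1, h2, _⟩ := hγ c hc
      exact local_one h hM hMU hU (hbl c hc).1 (hbl c hc).2 h1 h2
    rw [Finset.sum_congr rfl h1, Finset.sum_comm]
    refine Finset.sum_congr rfl fun g hg => ?_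
    rw [hloc g (Finset.mem_filter.1 hg).2, Finset.mul_sum]

/-- the alternating sum for the quotient by `R` modulo `q` -/
theorem kR_eq_dvd {q : ℤ} (hq : q ≠ 0) (h : Src p b D f i) (hRD : R < D)
    (hn : Subgroup.normalizer (R : Set A) = ⊤)
    (hloc : ∀ τ : Finset (Subgroup A), Up p R τ → τ.Nonempty → ∀ c, IsBlock (sN τ) c →
      resS (Id.sC τ : Set A) b * c = c → ∀ g : A, (∀ Q ∈ τ, Q ≤ cg g D) →
      IsDefectGroup p (sN τ) c (cg g D) → resS (CD (cg g D) : Set A) c * cj g f = cj g f →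
      q ∣ (Nat.card (IrX (sN τ) c) : ℤ) -
        (Nat.card (IrX (Subgroup.normalizer (cg g D : Set A) ⊓ sN τ)
          (resS (CD (cg g D) : Set A) c)) : ℤ)) :
    q ∣ (∑ σ ∈ Id.chRE p (NQ R), (-1 : ℤ) ^ σ.card * (Id.kB σ (proj R b) : ℤ)) -
      ((Nat.card (IrX (⊤ : Subgroup A) b) : ℤ) - (kap D b : ℤ)) := by
  classical
  have : Fintype (Finset (Subgroup A)) := Fintype.ofFinite _
  have hb := h.root.blk.mem
  have hbb := h.root.blk.idem
  have hDp := h.root.dfg.isPGroup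
  have hRp : IsPGroup p R := hDp.to_le hRD.le
  set ν : ℤ := (Nat.card (Subgroup.normalizer (D : Set A)) : ℤ) with hν
  have hν0 : ν ≠ 0 := by
    rw [hν]
    exact_mod_cast Nat.card_pos.ne'
  set S := (Finset.univ : Finset (Finset (Subgroup A))).filter
    (fun τ => Up p R τ ∧ τ.Nonempty) with hS
  let s : Finset (Subgroup A) → ℤ := fun τ => (Nat.card (sN τ) : ℤ)
  let l : Finset (Subgroup A) → ℤ := fun τ =>
    (Nat.card (IrX (sN τ) (resS (Id.sC τ : Set A) b)) : ℤ)
  let W : Finset (Subgroup A) → ℤ := fun τ => ∑ g : A, Gt b D τ g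
  have hs0 : ∀ τ, s τ ≠ 0 := by
    intro τ
    change (Nat.card (sN τ) : ℤ) ≠ 0
    exact_mod_cast Nat.card_pos.ne'
  -- the local formula
  have hlk : ∀ τ, Up p R τ → τ.Nonempty → ∃ L : ℤ, q ∣ l τ - L ∧ ν * (s τ * L) = W τ := by
    intro τ hup hne
    obtain ⟨M, hM, hall, hsC, hCN, hNM⟩ := CgAux.exists_max hup.1 hne
    have hiff : ∀ g : A, (∀ Q ∈ τ, Q ≤ cg g D) ↔ M ≤ cg g D := fun g =>
      ⟨fun h3 => h3 M hM, fun h3 Q hQ => (hall Q hQ).trans h3⟩
    obtain ⟨L, hL1, hL2⟩ := local_kap_dvd (q := q) h (hup.1.2 M hM).1 hCN hNM (by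
      intro c hc hcb g hg hgd hcf
      exact hloc τ hup hne c hc (by rw [hsC]; exact hcb) g ((hiff g).2 hg) hgd hcf)
    refine ⟨L, ?_, ?_⟩
    · change q ∣ (Nat.card (IrX (sN τ) (resS (Id.sC τ : Set A) b)) : ℤ) - (L : ℤ)
      rw [hsC]
      exact hL1
    · change (Nat.card (Subgroup.normalizer (D : Set A)) : ℤ) * ((Nat.card (sN τ) : ℤ) * (L : ℤ))
        = ∑ g : A, Gt b D τ g
      have h1 := congrArg (fun m : ℕ => (m : ℤ)) hL2
      simp only [Nat.cast_mul, Nat.cast_sum] at h1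
      rw [h1, Finset.sum_filter]
      refine Finset.sum_congr rfl fun g _ => ?_
      unfold Gt
      by_cases hMg : M ≤ cg g D
      · rw [if_pos hMg, if_pos ((hiff g).2 hMg)]
        push_cast
        rfl
      · rw [if_neg hMg, if_neg (fun h3 => hMg ((hiff g).1 h3))]
  -- the invariant weight
  let w : Finset (Subgroup A) → ℤ := fun τ =>
    (-1 : ℤ) ^ τ.card * ((ν * (s τ * l τ) - W τ) / (ν * s τ * q))
  have hwS : ∀ τ, Up p R τ → τ.Nonempty →
      ν * q * (s τ * w τ) = (-1 : ℤ) ^ τ.card * (ν * (s τ * l τ) - W τ) := by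
    intro τ hup hne
    obtain ⟨L, ⟨z, hz⟩, hL⟩ := hlk τ hup hne
    have h1 : ν * (s τ * l τ) - W τ = (ν * s τ * q) * z := by
      rw [← hL]
      have h2 : l τ = L + q * z := by linarith
      rw [h2]
      ring
    have h2 : (ν * (s τ * l τ) - W τ) / (ν * s τ * q) = z := by
      rw [h1]
      exact Int.mul_ediv_cancel_left _ (mul_ne_zero (mul_ne_zero hν0 (hs0 τ)) hq)
    change ν * q * (s τ * ((-1 : ℤ) ^ τ.card *
      ((ν * (s τ * l τ) - W τ) / (ν * s τ * q)))) = _
    rw [h2, h1]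
    ring
  have hinv : ∀ g τ, Up p R τ → τ.Nonempty → w (cgS g τ) = w τ := by
    intro g τ hup hne
    have h1 : s (cgS g τ) = s τ := by
      change (Nat.card (sN (cgS g τ)) : ℤ) = (Nat.card (sN τ) : ℤ)
      rw [sN_cgS, card_cg]
    have h2 : l (cgS g τ) = l τ := by
      change (Nat.card (IrX (sN (cgS g τ)) (resS (Id.sC (cgS g τ) : Set A) b)) : ℤ) = _
      rw [l_cgS hb hbb hup.1 hne g]
    have h3 : W (cgS g τ) = W τ := sum_gt_cgS hb hbb hDp hup.1 hne g
    change (-1 : ℤ) ^ (cgS g τ).card * ((ν * (s (cgS g τ) * l (cgS g τ)) - W (cgS g τ)) /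
      (ν * s (cgS g τ) * q)) = _
    rw [h1, h2, h3, card_cgS]
  obtain ⟨Z, hZ⟩ := sum_up_dvd (p := p) hn w hinv
  -- the sum over the nonempty chains
  have hne : ν * ∑ τ ∈ S, (-1 : ℤ) ^ τ.card * (s τ * l τ) =
      (Nat.card A : ℤ) * ν * (q * Z - (kap D b : ℤ)) := by
    have h1 := sum_sum_gt h hRD hn
    have h1' : ∑ τ ∈ S, (-1 : ℤ) ^ τ.card * W τ = -((Nat.card A : ℤ) * (ν * (kap D b : ℤ))) := by
      refine Eq.trans (Finset.sum_congr ?_ fun τ _ => rfl) (h1.trans ?_)
      · rw [hS]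
      · push_cast
        rfl
    have h2' : ∑ τ ∈ S, s τ * w τ = (Nat.card A : ℤ) * Z := by
      refine Eq.trans (Finset.sum_congr ?_ fun τ _ => rfl) hZ
      rw [hS]
    have h3 : ν * q * ∑ τ ∈ S, s τ * w τ =
        ∑ τ ∈ S, (-1 : ℤ) ^ τ.card * (ν * (s τ * l τ) - W τ) := by
      rw [Finset.mul_sum]
      refine Finset.sum_congr rfl fun τ hτ => ?_
      obtain ⟨hup, hne⟩ := (Finset.mem_filter.1 hτ).2
      exact hwS τ hup hne
    have h4 : ∑ τ ∈ S, (-1 : ℤ) ^ τ.card * (ν * (s τ * l τ) - W τ) =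
        ν * ∑ τ ∈ S, (-1 : ℤ) ^ τ.card * (s τ * l τ) - ∑ τ ∈ S, (-1 : ℤ) ^ τ.card * W τ := by
      rw [Finset.mul_sum, ← Finset.sum_sub_distrib]
      refine Finset.sum_congr rfl fun τ _ => ?_
      ring
    rw [h4, h2', h1'] at h3
    linear_combination -h3
  have hall : (Finset.univ : Finset (Finset (Subgroup A))).filter (fun τ => Up p R τ) =
      insert ∅ S := by
    ext τ
    rw [hS]
    simp only [Finset.mem_filter, Finset.mem_univ, true_and, Finset.mem_insert]
    constructor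
    · intro h5
      rcases τ.eq_empty_or_nonempty with h6 | h6
      · exact Or.inl h6
      · exact Or.inr ⟨h5, h6⟩
    · rintro (rfl | h5)
      · refine ⟨⟨?_, ?_⟩, ?_⟩
        · simp
        · simp
        · simp
      · exact h5.1
  have h1 := kR_quot (p := p) hb hbb hRp hn
  have h1' : ∑ τ ∈ (Finset.univ : Finset (Finset (Subgroup A))).filter (fun τ => Up p R τ),
      (-1 : ℤ) ^ τ.card *
        ((Nat.card (sN τ) * Nat.card (IrX (sN τ) (resS (Id.sC τ : Set A) b)) : ℕ) : ℤ) =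
      (Nat.card A : ℤ) *
        ∑ σ ∈ Id.chRE p (NQ R), (-1 : ℤ) ^ σ.card * (Id.kB σ (proj R b) : ℤ) :=
    Eq.trans (Finset.sum_congr (by
        ext τ
        simp only [Finset.mem_filter]) fun τ _ => rfl) h1.symm
  have hnot : (∅ : Finset (Subgroup A)) ∉ S := by
    rw [hS]
    simp
  rw [hall, Finset.sum_insert hnot, Finset.card_empty, pow_zero, one_mul, DcAux.sN_empty,
    DcAux.sC_empty, resS_top, Subgroup.card_top] at h1'
  have h5 : ∑ τ ∈ S, (-1 : ℤ) ^ τ.card *
        ((Nat.card (sN τ) * Nat.card (IrX (sN τ) (resS (Id.sC τ : Set A) b)) : ℕ) : ℤ) =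
      ∑ τ ∈ S, (-1 : ℤ) ^ τ.card * (s τ * l τ) := by
    refine Finset.sum_congr rfl fun τ _ => ?_
    push_cast
    rfl
  rw [h5] at h1'
  push_cast at h1'
  set KR := ∑ σ ∈ Id.chRE p (NQ R), (-1 : ℤ) ^ σ.card * (Id.kB σ (proj R b) : ℤ) with hKR
  refine ⟨Z, ?_⟩
  have h3 : (Nat.card A : ℤ) * ν ≠ 0 :=
    mul_ne_zero (by exact_mod_cast Nat.card_pos.ne') hν0
  apply mul_left_cancel₀ h3
  linear_combination (-ν) * h1' + hne

end

end Pool.Agent.Lib.P0c8ca5.Nc
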