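import Mathlib
import Pool.Agent.Lib.P0c8ca5Nc.CH

/-!
# Nc.CL: cyclic inertial quotients

`kap_St`: `kap D b` is the number of the simple modules of `St D f` in `f`.
`card_cyc`: it is `|St D f : CD D|` if this quotient is cyclic.
-/

set_option autoImplicit false
set_option linter.unusedSectionVars false

namespace Pool.Agent.Lib.P0c8ca5.Nc

open MonoidAlgebra Bq Ex Kq Gg Ps Zz

variable {p : ℕ} {k : Type*} [Field k] {A : Type*} [Group A]
variable [Fact p.Prime] [CharP k p] [IsAlgClosed k] [Fintype A]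
variable {b f i : MonoidAlgebra k A} {D : Subgroup A}

theorem f_one (hp : p ≠ 2) (h : Src p b D f i) : Nat.card (IrX (CD D) f) = 1 :=
  reg_one hp h (le_refl D) reg_self (by
    obtain ⟨c', hc'⟩ := exists_lb h (le_refl D)
    rwa [lb_D h hc'] at hc')

theorem kap_St (hp : p ≠ 2) (h : Src p b D f i) (hE : ¬ p ∣ eN D f) :
    kap D b = Nat.card (IrX (St D f) f) := by
  have hb := h.root.blk.mem
  have hbb := h.root.blk.idem
  have hDp := h.root.dfg.isPGroup
  have hfl := f_one hp h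
  have hbf : Bel D f D f 1 := by
    obtain ⟨c', hc'⟩ := exists_lb h (le_refl D)
    have h2 := bel_one h (le_refl D) hc'
    rwa [lb_D h hc'] at h2
  unfold kap
  have hst : St D f = stb (Subgroup.normalizer (D : Set A)) f := by
    ext g
    rw [mem_St, mem_stb]
  rw [hst]
  refine fong p (Subgroup.centralizer_le_normalizer _)
    (fun w hw => mem_normalizer_centralizer hw) resS_suppIn
    (mem_fixAlg.1 (CfAux.res_mem hb (Subgroup.centralizer_le_normalizer _) le_rfl)).2
    (CfAux.res_idem (p := p) hb hbb hDp) h.root.fblk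
    ((CfAux.below_iff hb h.root.fblk).2 h.root.bf) hfl ?_
  intro e he heb
  obtain ⟨g, hg⟩ := exists_bel h hE hDp he ((CfAux.below_iff hb he).1 heb)
  have hgD : cg g D = D := by
    have h3 : Nat.card (cg g D) = Nat.card D := card_cg g D
    exact (Subgroup.eq_of_le_of_card_ge hg.1 h3.le).symm
  have h4 := hbf.cj g
  rw [mul_one, hgD] at h4
  have h3 : IsBlock (CD D) (cj g f) := by
    have h5 := blk_inv h.root.fblk g
    rwa [hgD] at h5
  exact ⟨g, cg_eq_self_iff.1 hgD, Bel.unique h he h3 hg h4⟩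

/-- the local number for cyclic inertial quotients -/
theorem card_cyc (hp : p ≠ 2) (h : Src p b D f i) (hE : ¬ p ∣ eN D f) {z : A}
    (hz : z ∈ St D f) (hc : ∀ x ∈ St D f, ∃ n : ℕ, x * (z ^ n)⁻¹ ∈ CD D) :
    Nat.card (IrX (St D f) f) = eN D f := by
  have hDS := CD_le_St h.root.fblk
  have hn : St D f ≤ Subgroup.normalizer (CD D : Set A) := fun w hw =>
    mem_normalizer_centralizer (mem_St.1 hw).1
  have hfix : ∀ x ∈ St D f, cj x f = f := fun x hx => (mem_St.1 hx).2
  have hun : ∀ e, IsBlock (CD D) e → e * f = e → e = f := by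
    intro e he hef
    rcases he.eq_or_mul_eq_zero h.root.fblk with h1 | h1
    · exact h1
    · rw [hef] at h1
      exact absurd h1 he.ne_zero
  have hcomm : ∀ x ∈ St D f, ∀ y ∈ St D f, y * x * y⁻¹ * x⁻¹ ∈ CD D := by
    intro x hx y hy
    obtain ⟨a, ha⟩ := hc x hx
    obtain ⟨c, hc'⟩ := hc y hy
    have hza : ∀ m : ℕ, z ^ m ∈ St D f := fun m => (St D f).pow_mem hz m
    have e1 : x = (x * (z ^ a)⁻¹) * z ^ a := by group
    have e2 : y = (y * (z ^ c)⁻¹) * z ^ c := by group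
    rw [e1, e2]
    refine (comm_iff (H := St D f) hn ha hc' (hza a) (hza c)).2 ?_
    rw [CaAux.comm_pow]
    exact (CD D).one_mem
  have h1 := card_l (p := p) hDS hn h.root.fblk.suppIn
    (invBy_iff_cj.2 hfix) h.root.fblk.idem (fun e he hef => by
      rw [hun e he hef]
      exact f_one hp h) (fun e he hef x hx y hy hxy hxe hye => by
      refine ⟨⟨eN D f, hE, CfAux.pow_eN hx⟩, z, hz, ?_, ?_⟩
      · rw [hun e he hef]
        exact hfix z hz
      · obtain ⟨a, ha⟩ := hc x hx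
        obtain ⟨c, hc'⟩ := hc y hy
        exact ⟨a, c, ha, hc'⟩)
  have h2 : Nat.card (Tri (CD D) (St D f) f) = Nat.card (St D f) * Nat.card (St D f) := by
    rw [← Nat.card_prod]
    refine Nat.card_congr ⟨fun t => ⟨⟨t.1.1, t.2.1.1⟩, ⟨t.1.2.1, t.2.1.2.1⟩⟩,
      fun s => ⟨⟨s.1.1, s.2.1, f⟩, ⟨s.1.2, s.2.2, hcomm _ s.1.2 _ s.2.2⟩,
        ⟨h.root.fblk, h.root.fblk.idem⟩, hfix _ s.1.2, hfix _ s.2.2⟩, ?_, ?_⟩
    · rintro ⟨⟨x, y, e⟩, ht⟩
      have h3 : e = f := hun e ht.2.1.1 ht.2.1.2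
      subst h3
      rfl
    · rintro ⟨⟨x, hx⟩, ⟨y, hy⟩⟩
      rfl
  rw [h2] at h1
  have h3 : Nat.card (CD D) * eN D f = Nat.card (St D f) := by
    rw [← Subgroup.card_mul_index ((CD D).subgroupOf (St D f)),
      Nat.card_congr (Subgroup.subgroupOfEquivOfLe hDS).toEquiv]
    rfl
  have h4 : 0 < Nat.card (St D f) := Nat.card_pos
  have h5 : 0 < Nat.card (CD D) := Nat.card_pos
  have h6 : Nat.card (CD D) * Nat.card (IrX (St D f) f) = Nat.card (CD D) * eN D f := by
    rw [h3]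
    apply Nat.eq_of_mul_eq_mul_left h4
    rw [← h1]
    ring
  exact Nat.eq_of_mul_eq_mul_left h5 h6

end Pool.Agent.Lib.P0c8ca5.Nc
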