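import Mathlib
import Pool.Agent.Lib.P0c8ca5Nc.CL
import Pool.Agent.Lib.P0c8ca5Ex.Fg
import Pool.Agent.Lib.P0c8ca5Ex.NS
import Pool.Agent.Lib.P0c8ca5Kq.Fin

/-!
# Nc.CM: at least `|E|` simple modules if `E` acts faithfully on a quotient of order `p`

`l_kap`: `l(b) - kap D b` is divisible by `p`.
`l_ge`: `R` is a central subgroup of index `p` in the defect group; then the inertial quotient is cyclic,
`kap D b = |E| < p`, hence `|E| ≤ l(b)`.
-/

set_option autoImplicit false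
set_option linter.unusedSectionVars false

namespace Pool.Agent.Lib.P0c8ca5.Nc

open MonoidAlgebra Bq Ex Kq Gg Ps Zz

universe u v

/-- the number of simple modules and the local number agree modulo `p` -/
theorem l_kap {p : ℕ} [Fact p.Prime] {k : Type v} [Field k] [IsAlgClosed k]
    [CharP k p] {A : Type u} [Group A] [Fintype A] {b f i : MonoidAlgebra k A} {D : Subgroup A}
    (h : Src p b D f i) (hnd : ¬ p ∣ eN D f) :
    ∃ t : ℤ, (Nat.card (IrX (⊤ : Subgroup A) b) : ℤ) = (kap D b : ℤ) + p * t := by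
  obtain ⟨T, hT1, hT2⟩ := exists_transversal (⊤ : Subgroup A) (Theta p (⊤ : Subgroup A) ⊤ b)
  have hw := wt_kap h hnd T hT1 hT2
  have hinv : InvBy ⊤ b := h.root.blk.invBy
  have hg := gap_eq (p := p) (le_refl (⊤ : Subgroup A)) (by
    intro x _
    rw [Subgroup.mem_normalizer_iff]
    intro y
    simp) (fun x _ => ⟨0, Subgroup.mem_top _⟩) h.root.blk hinv T hT1 hT2
  have hΓ : IsPGroup p (A ⧸ (⊤ : Subgroup A)) := by
    have := QuotientGroup.subsingleton_quotient_top (G := A)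
    exact fun x => ⟨0, Subsingleton.elim _ _⟩
  obtain ⟨t, ht⟩ := Se.gap_cent (⊤ : Subgroup A) hΓ h.root.blk hinv h.root.dfg
    (Se.sg_comm h.root.com)
  rw [ht, card_top h.root.blk, hw] at hg
  refine ⟨t, ?_⟩
  have h1 : (p : ℤ) * t = (Nat.card (IrX (⊤ : Subgroup A) b) : ℤ) - (kap D b : ℤ) := by
    exact_mod_cast hg
  linarith

section
variable {p : ℕ} [Fact p.Prime] {k : Type*} [Field k] [IsAlgClosed k] [CharP k p]
  {A : Type*} [Group A] [Fintype A] {T : Type*} [CommGroup T] [Fintype T]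
  {φ : T →* A} {b f i : MonoidAlgebra k A} {D : Subgroup A} {R : Subgroup T}

/-- automorphisms which are trivial on `R` act on `T / R` -/
def qAut (R : Subgroup T) (E : Subgroup (MulAut T)) (hE : ∀ ψ ∈ E, ∀ z ∈ R, ψ z = z) :
    E →* MulAut (T ⧸ R) where
  toFun ψ := QuotientGroup.congr R R ψ.1 (by
    ext z
    rw [Subgroup.mem_map]
    constructor
    · rintro ⟨y, hy, rfl⟩
      change ψ.1 y ∈ R
      rw [hE ψ.1 ψ.2 y hy]
      exact hy
    · intro hz
      exact ⟨z, hz, hE ψ.1 ψ.2 z hz⟩)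
  map_one' := by
    ext x
    induction x using QuotientGroup.induction_on with
    | H x => rfl
  map_mul' ψ ψ' := by
    ext x
    induction x using QuotientGroup.induction_on with
    | H x => rfl

theorem qAut_mk (E : Subgroup (MulAut T)) (hE : ∀ ψ ∈ E, ∀ z ∈ R, ψ z = z) (ψ : E) (t : T) :
    qAut R E hE ψ (QuotientGroup.mk t) = QuotientGroup.mk (ψ.1 t) := rfl

theorem qAut_inj (hE : ∀ ψ ∈ EG φ D f, ∀ z ∈ R, ψ z = z) (hpE : ¬ p ∣ Nat.card (EG φ D f))
    (hT : IsPGroup p T) : Function.Injective (qAut R (EG φ D f) hE) := by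
  have := finite_EG (φ := φ) (D := D) (f := f)
  rw [injective_iff_map_eq_one]
  intro ψ hψ
  apply Subtype.ext
  ext t
  -- `ψ t = w t` with `w ∈ R`
  have h1 : (QuotientGroup.mk (ψ.1 t) : T ⧸ R) = QuotientGroup.mk t := by
    rw [← qAut_mk (EG φ D f) hE ψ t, hψ]
    rfl
  have h2 : t⁻¹ * ψ.1 t ∈ R := QuotientGroup.eq.1 h1.symm
  set w := t⁻¹ * ψ.1 t with hw
  have h3 : ψ.1 t = t * w := by rw [hw, mul_inv_cancel_left]
  have h4 : ∀ m : ℕ, (ψ.1 ^ m) t = t * w ^ m := by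
    intro m
    induction m with
    | zero => simp
    | succ m ih =>
      rw [pow_succ', MulAut.mul_apply, ih, map_mul, map_pow, hE ψ.1 ψ.2 w h2, h3, pow_succ]
      rw [mul_assoc, mul_comm w]
  have h5 : ψ.1 ^ Nat.card (EG φ D f) = 1 := by
    have h6 : ψ ^ Nat.card (EG φ D f) = 1 := pow_card_eq_one'
    exact congrArg Subtype.val h6
  have h6 := h4 (Nat.card (EG φ D f))
  rw [h5, MulAut.one_apply] at h6
  have h7 : w ^ Nat.card (EG φ D f) = 1 := by
    have h8 : t * 1 = t * w ^ Nat.card (EG φ D f) := by rw [mul_one]; exact h6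
    exact (mul_left_cancel h8).symm
  have h8 : w = 1 := by
    obtain ⟨m, hm⟩ := hT w
    have h9 : orderOf w ∣ p ^ m := orderOf_dvd_of_pow_eq_one hm
    have h10 : orderOf w ∣ Nat.card (EG φ D f) := orderOf_dvd_of_pow_eq_one h7
    have h11 : Nat.Coprime (p ^ m) (Nat.card (EG φ D f)) :=
      Nat.Coprime.pow_left m (((Fact.out : p.Prime).coprime_iff_not_dvd).2 hpE)
    have h12 := Nat.eq_one_of_dvd_coprimes h11 h9 h10
    exact orderOf_eq_one_iff.1 h12
  change ψ.1 t = (1 : MulAut T) t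
  rw [h3, h8, mul_one, MulAut.one_apply]

theorem EG_cyclic (hE : ∀ ψ ∈ EG φ D f, ∀ z ∈ R, ψ z = z) (hpE : ¬ p ∣ Nat.card (EG φ D f))
    (hT : IsPGroup p T) (hR : Fintype.card T = p * Nat.card R) : IsCyclic (EG φ D f) := by
  have h1 : Nat.card (T ⧸ R) = p := by
    have h2 := Subgroup.card_eq_card_quotient_mul_card_subgroup R
    rw [Nat.card_eq_fintype_card (α := T), hR] at h2
    exact (Nat.eq_of_mul_eq_mul_right Nat.card_pos h2).symm
  have h2 : IsCyclic (T ⧸ R) := isCyclic_of_prime_card h1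
  have h3 : IsCyclic (MulAut (T ⧸ R)) := by
    have h4 : IsCyclic (ZMod (Nat.card (T ⧸ R)))ˣ := by
      rw [h1]
      infer_instance
    exact isCyclic_of_injective (IsCyclic.mulAutMulEquiv (T ⧸ R)).toMonoidHom
      (IsCyclic.mulAutMulEquiv (T ⧸ R)).injective
  exact isCyclic_of_injective (qAut R (EG φ D f) hE) (qAut_inj hE hpE hT)

/-- a generator modulo `CD D` -/
theorem exists_gen (hφ : Function.Injective φ) (hr : ∀ x, x ∈ D ↔ ∃ t, φ t = x)
    (hc : IsCyclic (EG φ D f)) :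
    ∃ z ∈ St D f, ∀ x ∈ St D f, ∃ n : ℕ, x * (z ^ n)⁻¹ ∈ CD D := by
  have := finite_EG (φ := φ) (D := D) (f := f)
  obtain ⟨ζ, hζ⟩ := hc.exists_generator
  obtain ⟨z, hz, hzt⟩ := ζ.2
  refine ⟨z, hz, fun x hx => ?_⟩
  obtain ⟨ψ, hψ, hψx⟩ := exists_EG hφ hr hx
  obtain ⟨n, hn⟩ := mem_powers_iff_mem_zpowers.2 (hζ ⟨ψ, hψ⟩)
  refine ⟨n, ?_⟩
  have h1 : ∀ m : ℕ, ∀ t, φ ((ζ.1 ^ m) t) = z ^ m * φ t * (z ^ m)⁻¹ := by
    intro m
    induction m with
    | zero => intro t; simp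
    | succ m ih =>
      intro t
      rw [pow_succ', MulAut.mul_apply, hzt, ih]
      group
  have h2 : ψ = ζ.1 ^ n := by
    have h3 := congrArg Subtype.val hn
    exact h3.symm
  rw [Subgroup.mem_centralizer_iff]
  intro y hy
  obtain ⟨t, rfl⟩ := (hr y).1 hy
  -- `t = ζ ^ n s`
  obtain ⟨s, rfl⟩ := (ζ.1 ^ n).surjective t
  have e1 : φ ((ζ.1 ^ n) s) = x * φ s * x⁻¹ := by rw [← h2]; exact hψx s
  have e2 := h1 n s
  have e3 : φ s = (z ^ n)⁻¹ * φ ((ζ.1 ^ n) s) * z ^ n := by rw [e2]; group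
  calc φ ((ζ.1 ^ n) s) * (x * (z ^ n)⁻¹) = x * φ s * x⁻¹ * (x * (z ^ n)⁻¹) := by rw [e1]
    _ = x * φ s * (z ^ n)⁻¹ := by group
    _ = x * ((z ^ n)⁻¹ * φ ((ζ.1 ^ n) s) * z ^ n) * (z ^ n)⁻¹ := by rw [← e3]
    _ = x * (z ^ n)⁻¹ * φ ((ζ.1 ^ n) s) := by group

theorem l_ge (hp2 : p ≠ 2) (h : Src p b D f i) (hφ : Function.Injective φ)
    (hr : ∀ x, x ∈ D ↔ ∃ t, φ t = x) (hR : ∀ z ∈ R, ∀ a : A, φ z * a = a * φ z)
    (hE : eN D f < p) (hT : Fintype.card T = p * Nat.card R) :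
    eN D f ≤ Nat.card (Quotient (irrInvSetoid (⊤ : Subgroup A) ⊤ b)) := by
  have hpos : 0 < eN D f := by
    unfold eN Subgroup.relIndex
    exact Nat.pos_of_ne_zero Subgroup.index_ne_zero_of_finite
  have hnd : ¬ p ∣ eN D f := fun h0 => absurd (Nat.le_of_dvd hpos h0) (not_le.2 hE)
  have hcard : Nat.card (EG φ D f) = eN D f := card_EG hφ hr
  have hTp : IsPGroup p T := by
    intro t
    obtain ⟨m, hm⟩ := h.root.dfg.isPGroup ⟨φ t, (hr _).2 ⟨t, rfl⟩⟩
    refine ⟨m, hφ ?_⟩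
    rw [map_pow, map_one]
    exact congrArg Subtype.val hm
  have hfix : ∀ ψ ∈ EG φ D f, ∀ z ∈ R, ψ z = z := by
    rintro ψ ⟨g, hg, hψ⟩ z hz
    apply hφ
    rw [hψ, ← hR z hz g]
    group
  obtain ⟨z, hz, hgen⟩ := exists_gen (f := f) hφ hr
    (EG_cyclic (p := p) hfix (by rw [hcard]; exact hnd) hTp hT)
  have h1 := card_cyc hp2 h hnd hz hgen
  have h2 := kap_St hp2 h hnd
  obtain ⟨t, ht⟩ := l_kap h hnd
  rw [h2, h1] at ht
  rw [card_top h.root.blk]
  by_contra hcon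
  push Not at hcon
  have h3 : t < 0 := by
    by_contra h4
    push Not at h4
    have h5 : (0 : ℤ) ≤ p * t := mul_nonneg (by positivity) h4
    have h6 : ((Nat.card (IrX (⊤ : Subgroup A) b) : ℕ) : ℤ) < eN D f := by exact_mod_cast hcon
    linarith
  have h4 : (p : ℤ) * t ≤ -p := by nlinarith [(Fact.out : p.Prime).pos]
  have h5 : (0 : ℤ) ≤ (Nat.card (IrX (⊤ : Subgroup A) b) : ℤ) := by positivity
  have h6 : ((eN D f : ℕ) : ℤ) < p := by exact_mod_cast hE
  linarith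

end

end Pool.Agent.Lib.P0c8ca5.Nc
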